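import Pool.Agent.Work.MP_323107_co.Growth

open MeasureTheory Set Metric Filter Topology
open scoped ENNReal

namespace SteinerBall

set_option linter.unusedSectionVars false

variable {E : Type*} [NormedAddCommGroup E] [InnerProductSpace ℝ E] [MeasurableSpace E]
  [BorelSpace E]

variable {St A : Set E} {x : E} {r : ℝ}

/-- a network through the points on the sphere bounds the length inside -/
theorem LocMin.len_le_of_net (h : LocMin St A x r) {ρ L : ℝ} (hρr : ρ < r)
    {a : E} (hL : 0 ≤ L) (hne : (St ∩ sphere x ρ).Nonempty)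
    (hnet : Net (St ∩ sphere x ρ) x ρ L a) : len St x ρ ≤ L := by
  obtain ⟨K, h1, h2, h3, h4, _, h6⟩ := hnet
  have h7 := (h.le_competitor hρr h1 h2 h3 h4 hne).trans h6
  exact (ENNReal.toReal_mono ENNReal.ofReal_ne_top h7).trans_eq (ENNReal.toReal_ofReal hL)

theorem LocMin.len_eq_zero (h : LocMin St A x r) {ρ : ℝ} (hρr : ρ < r)
    (hN : (St ∩ sphere x ρ).encard = 0) : len St x ρ = 0 := by
  have h1 := h.eq_zero_of_sphere hρr (encard_eq_zero.1 hN)
  rw [len, h1]; rfl

/-- the finset of points on a sphere -/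
theorem exists_finset {S : Set E} {n : ℕ} (h : S.encard = n) :
    ∃ P : Finset E, (P : Set E) = S ∧ P.card = n := by
  have hfin : S.Finite := finite_of_encard_eq_coe h
  refine ⟨hfin.toFinset, hfin.coe_toFinset, ?_⟩
  have := hfin.encard_eq_coe_toFinset_card
  rw [h] at this
  exact_mod_cast this.symm

theorem LocMin.cone_bound (h : LocMin St A x r) {ρ : ℝ} (hρ : 0 < ρ) (hρr : ρ < r) {n : ℕ}
    (hN : (St ∩ sphere x ρ).encard = n) : len St x ρ ≤ ρ * n := by
  rcases Nat.eq_zero_or_pos n with rfl | hn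
  · rw [h.len_eq_zero hρr (by exact_mod_cast hN)]; simp
  · obtain ⟨P, hP, hc⟩ := exists_finset hN
    have hPd : ∀ v ∈ P, dist v x = ρ := fun v hv => by
      have : v ∈ (P : Set E) := hv
      rw [hP] at this; exact this.2
    have h1 := net_cone x hρ.le P fun v hv => (hPd v hv).le
    rw [hP, hc] at h1
    refine h.len_le_of_net hρr (by positivity) ?_ h1
    rw [← hP]
    exact Finset.coe_nonempty.2 (Finset.card_pos.1 (by omega))

theorem LocMin.four_bound (h : LocMin St A x r) {ρ : ℝ} (hρ : 0 < ρ) (hρr : ρ < r) {n : ℕ}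
    (hn : 4 ≤ n) (hN : (St ∩ sphere x ρ).encard = n) : len St x ρ ≤ ρ * (n - 1 / 125) := by
  obtain ⟨P, hP, hc⟩ := exists_finset hN
  have hPd : ∀ v ∈ P, dist v x = ρ := fun v hv => by
    have : v ∈ (P : Set E) := hv
    rw [hP] at this; exact this.2
  have h1 := net_four x hρ P hPd (by omega)
  rw [hP, hc] at h1
  have hn' : (4 : ℝ) ≤ n := by exact_mod_cast hn
  refine h.len_le_of_net hρr (mul_nonneg hρ.le (by linarith)) ?_ h1
  rw [← hP]
  exact Finset.coe_nonempty.2 (Finset.card_pos.1 (by omega))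

/-- the density ratio is nondecreasing -/
theorem LocMin.ratio_mono (h : LocMin St A x r) {a b : ℝ} (ha : 0 < a) (hab : a ≤ b)
    (hb : b ≤ r) : len St x a / a ≤ len St x b / b := by
  have h1 := h.growth (κ := 0) le_rfl ha hab hb (fun τ hτ k hk => by
    have hτ0 : 0 < τ := lt_of_lt_of_le ha hτ.1
    have := h.cone_bound hτ0 (lt_of_lt_of_le hτ.2 hb) hk
    rw [add_zero, div_le_iff₀ hτ0]; linarith)
  simpa using h1

/-- as soon as the density ratio exceeds three it grows at least logarithmically -/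
theorem LocMin.log_growth (h : LocMin St A x r) {a b : ℝ} (ha : 0 < a) (hab : a ≤ b)
    (hb : b ≤ r) (h3 : 3 < len St x a / a) :
    len St x a / a + 1 / 125 * Real.log (b / a) ≤ len St x b / b := by
  refine h.growth (by norm_num) ha hab hb (fun τ hτ k hk => ?_)
  have hτ0 : 0 < τ := lt_of_lt_of_le ha hτ.1
  have hτr : τ < r := lt_of_lt_of_le hτ.2 hb
  have h4 : 3 < len St x τ / τ := lt_of_lt_of_le h3 (h.ratio_mono ha hτ.1 hτr.le)
  have h5 := h.cone_bound hτ0 hτr hk
  have h6 : 4 ≤ k := by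
    by_contra hlt
    have : (k : ℝ) ≤ 3 := by exact_mod_cast (by omega : k ≤ 3)
    rw [lt_div_iff₀ hτ0] at h4
    nlinarith
  have h7 := h.four_bound hτ0 hτr h6 hk
  have : len St x τ / τ ≤ k - 1 / 125 := by rw [div_le_iff₀ hτ0]; linarith
  linarith

variable [FiniteDimensional ℝ E]

theorem LocMin.mst_bound (h : LocMin St A x r) {m : ℕ} (hm : 2 ≤ m)
    (hd : Module.finrank ℝ E = m + 1) {ρ : ℝ} (hρ : 0 < ρ) (hρr : ρ < r) {n : ℕ}
    (hN : (St ∩ sphere x ρ).encard = n) :
    len St x ρ ≤ 24 * ρ * (n : ℝ) ^ (1 - 1 / (m : ℝ)) := by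
  rcases Nat.eq_zero_or_pos n with rfl | hn
  · rw [h.len_eq_zero hρr (by exact_mod_cast hN)]; positivity
  · obtain ⟨P, hP, hc⟩ := exists_finset hN
    have hPd : ∀ v ∈ P, dist v x = ρ := fun v hv => by
      have : v ∈ (P : Set E) := hv
      rw [hP] at this; exact this.2
    obtain ⟨a, h1⟩ := net_mst hm hd x hρ P hPd (Finset.card_pos.1 (by omega))
    rw [hP, hc] at h1
    refine h.len_le_of_net hρr (by positivity) ?_ h1
    rw [← hP]
    exact Finset.coe_nonempty.2 (Finset.card_pos.1 (by omega))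

/-- number of points from the length -/
theorem LocMin.count_ge (h : LocMin St A x r) {k : ℕ} (hk : 1 ≤ k)
    (hd : Module.finrank ℝ E = k + 2) {ρ : ℝ} (hρ : 0 < ρ) (hρr : ρ < r) {n : ℕ}
    (hN : (St ∩ sphere x ρ).encard = n) :
    (len St x ρ / (24 * ρ)) ^ (1 + 1 / (k : ℝ)) ≤ n := by
  have h1 := h.mst_bound (m := k + 1) (by omega) hd hρ hρr hN
  have hk0 : (0 : ℝ) < k := by exact_mod_cast hk
  have h2 : len St x ρ / (24 * ρ) ≤ (n : ℝ) ^ (1 - 1 / ((k + 1 : ℕ) : ℝ)) := by
    rw [div_le_iff₀ (by positivity)]; linarith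
  calc (len St x ρ / (24 * ρ)) ^ (1 + 1 / (k : ℝ))
      ≤ ((n : ℝ) ^ (1 - 1 / ((k + 1 : ℕ) : ℝ))) ^ (1 + 1 / (k : ℝ)) :=
        Real.rpow_le_rpow (div_nonneg (len_nonneg _ _ _) (by positivity)) h2 (by positivity)
    _ = n := by
        rw [← Real.rpow_mul (by positivity)]
        have : (1 - 1 / ((k + 1 : ℕ) : ℝ)) * (1 + 1 / (k : ℝ)) = 1 := by
          push_cast; field_simp; ring
        rw [this, Real.rpow_one]

theorem div_le_aux {u τ l : ℝ} (hτ : 0 < τ) (h : u * τ ≤ l) : u / 24 ≤ l / (24 * τ) := by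
  rw [div_le_div_iff₀ (by norm_num) (by positivity)]
  nlinarith

theorem prod_aux {u P Q Y Z r : ℝ} (hQ : Q ≠ 0) (h : P * (Y * Z) = 1) :
    u * P / Q * (r * (Q * Y * Z)) = u * r := by
  have h1 : u * P / Q * (r * (Q * Y * Z)) = u * r * (P * (Y * Z)) * (Q / Q) := by ring
  rw [h1, h, div_self hQ]; ring

/-- finite distance blow-up: the length in a smaller ball is bounded -/
theorem LocMin.len_bound (h : LocMin St A x r) {k : ℕ} (hk : 1 ≤ k)
    (hd : Module.finrank ℝ E = k + 2) {t : ℝ} (ht : 0 < t) (ht1 : t < 1) :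
    len St x (t * r) ≤ (24 ^ (k + 1) * (2 * k) ^ k : ℝ) / (1 - t) ^ k * r := by
  have hr := h.rpos
  have hk0 : (0 : ℝ) < k := by exact_mod_cast hk
  set X := len St x (t * r) / r with hX
  have hX0 : 0 ≤ X := div_nonneg (len_nonneg _ _ _) hr.le
  have hlen : len St x (t * r) = X * r := by rw [hX]; field_simp
  rw [hlen]
  refine mul_le_mul_of_nonneg_right ?_ hr.le
  rcases hX0.eq_or_lt with h0 | hXpos
  · rw [← h0]
    have : 0 < 1 - t := by linarith
    positivity
  -- scales
  set q : ℝ := (1 / 2 : ℝ) ^ (1 / (k : ℝ)) with hq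
  have hq0 : 0 < q := by positivity
  have hq1 : q ≤ 1 - 1 / (2 * k) := by
    have h1 : (1 / 2 : ℝ) ≤ (1 - 1 / (2 * k)) ^ k := by
      have h2 : -(2 : ℝ) ≤ -(1 / (2 * k)) := by
        have : 1 / (2 * (k : ℝ)) ≤ 1 := by
          rw [div_le_one (by positivity)]
          have : (1 : ℝ) ≤ k := by exact_mod_cast hk
          linarith
        linarith
      have h3 := one_add_mul_le_pow h2 k
      have h4 : 1 + (k : ℝ) * -(1 / (2 * k)) = 1 / 2 := by field_simp; ring
      rw [h4] at h3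
      calc (1 / 2 : ℝ) ≤ (1 + -(1 / (2 * k))) ^ k := h3
        _ = (1 - 1 / (2 * k)) ^ k := by ring
    have h5 : 0 ≤ 1 - 1 / (2 * (k : ℝ)) := by
      rw [sub_nonneg, div_le_one (by positivity)]
      have : (1 : ℝ) ≤ k := by exact_mod_cast hk
      linarith
    calc q ≤ ((1 - 1 / (2 * (k : ℝ))) ^ k) ^ (1 / (k : ℝ)) :=
          Real.rpow_le_rpow (by norm_num) h1 (by positivity)
      _ = 1 - 1 / (2 * k) := by
          rw [← Real.rpow_natCast, ← Real.rpow_mul h5, mul_one_div_cancel hk0.ne', Real.rpow_one]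
  have hq2 : q < 1 := lt_of_le_of_lt hq1 (by
    have : 0 < 1 / (2 * (k : ℝ)) := by positivity
    linarith)
  set Δ : ℝ := 24 ^ (1 + 1 / (k : ℝ)) * X ^ (-(1 / (k : ℝ))) with hΔ
  have hΔ0 : 0 < Δ := by positivity
  -- the main dichotomy
  have hmain : 1 - t ≤ Δ / (1 - q) := by
    by_contra hlt
    push Not at hlt
    set s : ℕ → ℝ := fun j => t * r + r * (Δ * ∑ i ∈ Finset.range j, q ^ i) with hs
    have hsr : ∀ j, s j ≤ r := by
      intro j
      have h1 : ∑ i ∈ Finset.range j, q ^ i ≤ 1 / (1 - q) := by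
        have h2 : ∑ i ∈ Finset.range j, q ^ i = (1 - q ^ j) / (1 - q) := by
          rw [geom_sum_eq hq2.ne]
          rw [← neg_div_neg_eq]; ring_nf
        rw [h2]
        have h3 : 0 < 1 - q := by linarith
        have h4 : 0 ≤ q ^ j := by positivity
        gcongr
        linarith
      have h5 : Δ * ∑ i ∈ Finset.range j, q ^ i ≤ Δ / (1 - q) := by
        calc Δ * ∑ i ∈ Finset.range j, q ^ i ≤ Δ * (1 / (1 - q)) :=
              mul_le_mul_of_nonneg_left h1 hΔ0.le
          _ = Δ / (1 - q) := by ring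
      have h6 : Δ * ∑ i ∈ Finset.range j, q ^ i ≤ 1 - t := h5.trans hlt.le
      have h7 : r * (Δ * ∑ i ∈ Finset.range j, q ^ i) ≤ r * (1 - t) :=
        mul_le_mul_of_nonneg_left h6 hr.le
      show t * r + r * (Δ * ∑ i ∈ Finset.range j, q ^ i) ≤ r
      linarith
    have hsucc : ∀ j, s (j + 1) - s j = r * (Δ * q ^ j) := by
      intro j
      simp only [hs]
      rw [Finset.sum_range_succ]; ring
    have hs0 : ∀ j, 0 < s j := by
      intro j
      have h1 : 0 ≤ r * (Δ * ∑ i ∈ Finset.range j, q ^ i) :=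
        mul_nonneg hr.le (mul_nonneg hΔ0.le (Finset.sum_nonneg fun i _ => pow_nonneg hq0.le i))
      show 0 < t * r + r * (Δ * ∑ i ∈ Finset.range j, q ^ i)
      have h2 : 0 < t * r := mul_pos ht hr
      linarith
    have hgrow : ∀ j : ℕ, 2 ^ j * X * r ≤ len St x (s j) := by
      intro j
      induction j with
      | zero => simp [hs, hlen]
      | succ j ih =>
        have h1 := h.increment (y := (2 ^ j * X / 24) ^ (1 + 1 / (k : ℝ)))
          (c := s j) (c' := s (j + 1)) (by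
            have := hsucc j
            have h2 : 0 < r * (Δ * q ^ j) := by positivity
            linarith) (hsr _) (fun τ hτ n hn => by
            have hτ0 : 0 < τ := lt_of_lt_of_le (hs0 j) hτ.1
            have hτr : τ < r := lt_of_lt_of_le hτ.2 (hsr _)
            refine le_trans ?_ (h.count_ge hk hd hτ0 hτr hn)
            have h2j : 0 ≤ (2 : ℝ) ^ j * X := mul_nonneg (pow_nonneg (by norm_num) j) hX0
            have h3 : 2 ^ j * X * r ≤ len St x τ := ih.trans (h.len_mono hτ.1 hτr.le)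
            have h4 : 2 ^ j * X * τ ≤ 2 ^ j * X * r := mul_le_mul_of_nonneg_left hτr.le h2j
            exact Real.rpow_le_rpow (div_nonneg h2j (by norm_num))
              (div_le_aux hτ0 (h4.trans h3)) (by positivity))
        rw [hsucc j] at h1
        have h5 : (2 ^ j * X / 24) ^ (1 + 1 / (k : ℝ)) * (r * (Δ * q ^ j)) = 2 ^ j * X * r := by
          have hu : (0 : ℝ) < 2 ^ j * X := by positivity
          have h6 : (2 ^ j * X / 24) ^ (1 + 1 / (k : ℝ)) =
              (2 ^ j * X) * ((2 ^ j * X) ^ (1 / (k : ℝ))) / 24 ^ (1 + 1 / (k : ℝ)) := by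
            rw [Real.div_rpow hu.le (by norm_num), Real.rpow_add hu, Real.rpow_one]
          have h7 : q ^ j = ((2 : ℝ) ^ j) ^ (-(1 / (k : ℝ))) := by
            rw [hq, ← Real.rpow_natCast, ← Real.rpow_natCast, ← Real.rpow_mul (by norm_num),
              ← Real.rpow_mul (by norm_num), one_div, Real.inv_rpow (by norm_num),
              ← Real.rpow_neg (by norm_num)]
            congr 1; ring
          have h8 : (2 ^ j * X) ^ (1 / (k : ℝ)) * (X ^ (-(1 / (k : ℝ))) *
              ((2 : ℝ) ^ j) ^ (-(1 / (k : ℝ)))) = 1 := by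
            rw [mul_comm (X ^ _), ← Real.mul_rpow (by positivity) hXpos.le, ← Real.rpow_add hu]
            simp
          have h9 : (24 : ℝ) ^ (1 + 1 / (k : ℝ)) ≠ 0 := by positivity
          rw [h6, h7, hΔ]
          exact prod_aux h9 h8
        rw [h5] at h1
        calc 2 ^ (j + 1) * X * r = 2 ^ j * X * r + 2 ^ j * X * r := by ring
          _ ≤ len St x (s j) + 2 ^ j * X * r := by linarith
          _ ≤ len St x (s (j + 1)) := h1
    have hbd : ∀ j : ℕ, 2 ^ j * (X * r) ≤ len St x r := fun j => by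
      have h1 := (hgrow j).trans (h.len_mono (hsr j) le_rfl)
      linarith
    have hXr : 0 < X * r := by positivity
    obtain ⟨j, hj⟩ := pow_unbounded_of_one_lt (len St x r / (X * r)) (one_lt_two : (1 : ℝ) < 2)
    have h2 := hbd j
    rw [div_lt_iff₀ hXr] at hj
    linarith
  -- conclusion
  have h1q : 1 / (2 * (k : ℝ)) ≤ 1 - q := by linarith
  have h1q0 : 0 < 1 - q := by linarith
  have h1t : 0 < 1 - t := by linarith
  have hfin : X ^ (1 / (k : ℝ)) ≤ 24 ^ (1 + 1 / (k : ℝ)) * (2 * k) / (1 - t) := by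
    rw [le_div_iff₀ h1t]
    rw [le_div_iff₀ h1q0] at hmain
    have hXp : 0 < X ^ (1 / (k : ℝ)) := by positivity
    have h2 : Δ * X ^ (1 / (k : ℝ)) = 24 ^ (1 + 1 / (k : ℝ)) := by
      rw [hΔ, mul_assoc, ← Real.rpow_add hXpos]; simp
    have h3 : (1 - t) * (1 / (2 * (k : ℝ))) ≤ Δ :=
      (mul_le_mul_of_nonneg_left h1q h1t.le).trans hmain
    have h4 : (1 - t) * (1 / (2 * (k : ℝ))) * X ^ (1 / (k : ℝ)) ≤ 24 ^ (1 + 1 / (k : ℝ)) := by
      rw [← h2]; exact mul_le_mul_of_nonneg_right h3 hXp.le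
    calc X ^ (1 / (k : ℝ)) * (1 - t) =
          ((1 - t) * (1 / (2 * (k : ℝ))) * X ^ (1 / (k : ℝ))) * (2 * k) := by field_simp
      _ ≤ 24 ^ (1 + 1 / (k : ℝ)) * (2 * k) :=
          mul_le_mul_of_nonneg_right h4 (by positivity)
  calc X = (X ^ (1 / (k : ℝ))) ^ k := by
        rw [← Real.rpow_natCast, ← Real.rpow_mul hXpos.le, one_div_mul_cancel hk0.ne',
          Real.rpow_one]
    _ ≤ (24 ^ (1 + 1 / (k : ℝ)) * (2 * k) / (1 - t)) ^ k :=
        pow_le_pow_left₀ (by positivity) hfin k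
    _ = 24 ^ (k + 1) * (2 * k) ^ k / (1 - t) ^ k := by
        rw [div_pow, mul_pow]
        congr 2
        rw [← Real.rpow_natCast, ← Real.rpow_mul (by norm_num), ← Real.rpow_natCast]
        congr 1
        push_cast
        field_simp

end SteinerBall
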