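import Pool.Agent.Work.MP_323107_co.Eil

open MeasureTheory Set Metric Filter Topology
open scoped ENNReal NNReal

namespace SteinerBall

set_option linter.unusedSectionVars false

section graph

variable {V : Type*} [DecidableEq V] {G : SimpleGraph V}

/-- the initial part of a walk up to its first visit of a set -/
theorem first_hit (S : Set V) {c v₀ : V} (W : G.Walk c v₀) (hv : v₀ ∈ S) :
    ∃ v ∈ S, ∃ W' : G.Walk c v, ∀ w ∈ W'.support, w ∈ S → w = v := by
  classical
  induction W with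
  | nil => exact ⟨_, hv, SimpleGraph.Walk.nil, by simp⟩
  | @cons a b c' h p ih =>
    by_cases ha : a ∈ S
    · exact ⟨a, ha, SimpleGraph.Walk.nil, by simp⟩
    · obtain ⟨v, hvS, W', hW'⟩ := ih hv
      refine ⟨v, hvS, SimpleGraph.Walk.cons h W', ?_⟩
      intro w hw hwS
      rw [SimpleGraph.Walk.support_cons, List.mem_cons] at hw
      rcases hw with rfl | hw
      · exact absurd hwS ha
      · exact hW' w hw hwS

variable {X : Type*} [MetricSpace X] {U : V → Set X} {D : V → ℝ}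

/-- the distance along a chain of sets -/
theorem walk_dist (hU : ∀ i, ∀ x ∈ U i, ∀ y ∈ U i, dist x y ≤ D i)
    (hadj : ∀ i j, G.Adj i j → (U i ∩ U j).Nonempty) {i j : V} (W : G.Walk i j) :
    ∀ x ∈ U i, ∀ y ∈ U j, dist x y ≤ (W.support.map D).sum := by
  induction W with
  | nil => intro x hx y hy; simpa using hU _ x hx y hy
  | @cons a b c h p ih =>
    intro x hx y hy
    obtain ⟨z, hz1, hz2⟩ := hadj a b h
    rw [SimpleGraph.Walk.support_cons, List.map_cons, List.sum_cons]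
    calc dist x y ≤ dist x z + dist z y := dist_triangle _ _ _
      _ ≤ D a + (p.support.map D).sum := add_le_add (hU a x hx z hz1) (ih z hz2 y hy)

theorem walk_mem {J : Finset V} (hJ : ∀ i j, G.Adj i j → i ∈ J ∧ j ∈ J) {i j : V}
    (W : G.Walk i j) (hi : i ∈ J) : ∀ v ∈ W.support, v ∈ J := by
  induction W with
  | nil => intro v hv; simp at hv; rw [hv]; exact hi
  | @cons a b c h p ih =>
    intro v hv
    rw [SimpleGraph.Walk.support_cons, List.mem_cons] at hv
    rcases hv with rfl | hv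
    · exact hi
    · exact ih (hJ _ _ h).2 v hv

theorem walk_nonempty (hadj : ∀ i j, G.Adj i j → (U i ∩ U j).Nonempty) {i j : V}
    (W : G.Walk i j) (hi : (U i).Nonempty) : (U j).Nonempty := by
  induction W with
  | nil => exact hi
  | @cons a b c h p ih =>
    obtain ⟨z, hz1, hz2⟩ := hadj a b h
    exact ih ⟨z, hz2⟩

theorem three_point (J : Finset V) (hD : ∀ i, 0 ≤ D i)
    (hU : ∀ i, ∀ x ∈ U i, ∀ y ∈ U i, dist x y ≤ D i)
    (hadj : ∀ i j, G.Adj i j → (U i ∩ U j).Nonempty)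
    (hJ : ∀ i j, G.Adj i j → i ∈ J ∧ j ∈ J) {M : ℝ} (hM : ∀ i, D i ≤ M)
    {a b c : V} (haJ : a ∈ J) (hcJ : c ∈ J) (hab : G.Reachable a b) (hca : G.Reachable c a)
    {x y z : X} (hx : x ∈ U a) (hy : y ∈ U b) (hz : z ∈ U c) :
    ∃ p : X, dist x p + dist y p + dist z p ≤ ∑ i ∈ J, D i + 2 * M := by
  classical
  obtain ⟨P0⟩ := hab
  obtain ⟨W⟩ := hca
  set P := P0.bypass with hP
  have hPp : P.IsPath := P0.bypass_isPath
  obtain ⟨v, hv, W', hW'⟩ := first_hit {w | w ∈ P.support} W P.start_mem_support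
  have hv' : v ∈ P.support := hv
  set W2 := W'.bypass with hW2
  have hW2p : W2.IsPath := W'.bypass_isPath
  have hW2s : ∀ w ∈ W2.support, w ∈ P.support → w = v := fun w hw hwP =>
    hW' w (W'.support_bypass_subset hw) hwP
  set P1 := P.takeUntil v hv' with hP1
  set P2 := P.dropUntil v hv' with hP2
  obtain ⟨p, hp⟩ : (U v).Nonempty := walk_nonempty hadj P1 ⟨x, hx⟩
  refine ⟨p, ?_⟩
  have h1 : dist x p ≤ (P1.support.map D).sum := walk_dist hU hadj P1 x hx p hp
  have h2 : dist p y ≤ (P2.support.map D).sum := walk_dist hU hadj P2 p hp y hy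
  have h3 : dist z p ≤ (W2.support.map D).sum := walk_dist hU hadj W2 z hz p hp
  have h4 : P.support = P1.support ++ P2.support.tail := by
    rw [← SimpleGraph.Walk.support_append, hP1, hP2, SimpleGraph.Walk.take_spec]
  have h5 : P2.support = v :: P2.support.tail := by
    rw [SimpleGraph.Walk.support_eq_cons]; simp
  have h6 : (P1.support.map D).sum + (P2.support.map D).sum = (P.support.map D).sum + D v := by
    rw [h4, h5, List.map_append, List.sum_append, List.map_cons, List.sum_cons, List.tail_cons]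
    ring
  have hvW : v ∈ W2.support := W2.end_mem_support
  have h7 : (W2.support.map D).sum = D v + ((W2.support.erase v).map D).sum := by
    rw [((List.perm_cons_erase hvW).map D).sum_eq, List.map_cons, List.sum_cons]
  have hnd : (P.support ++ W2.support.erase v).Nodup := by
    rw [List.nodup_append]
    refine ⟨hPp.support_nodup, hW2p.support_nodup.erase v, ?_⟩
    intro w hw w' hw' hww
    subst hww
    have h8 := (hW2p.support_nodup.mem_erase_iff).1 hw'
    exact h8.1 (hW2s w h8.2 hw)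
  have h8 : (P.support.map D).sum + ((W2.support.erase v).map D).sum ≤ ∑ i ∈ J, D i := by
    rw [← List.sum_append, ← List.map_append, ← List.sum_toFinset _ hnd]
    refine Finset.sum_le_sum_of_subset_of_nonneg ?_ fun i _ _ => hD i
    intro w hw
    rw [List.mem_toFinset, List.mem_append] at hw
    rcases hw with hw | hw
    · exact walk_mem hJ P haJ w hw
    · exact walk_mem hJ W2 hcJ w (List.mem_of_mem_erase hw)
  have h9 := hM v
  rw [dist_comm y p]
  linarith

end graph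

variable {X : Type*} [MetricSpace X] [MeasurableSpace X] [BorelSpace X]

/-- lower bound for the length of a compact connected set through three points -/
theorem three_le {K : Set X} (hK : IsCompact K) (hKc : IsPreconnected K) {a b c : X}
    (ha : a ∈ K) (hb : b ∈ K) (hc : c ∈ K) (hfin : μH[1] K ≠ ∞) {s : ℝ}
    (hs : ∀ p : X, s ≤ dist a p + dist b p + dist c p) : ENNReal.ofReal s ≤ μH[1] K := by
  classical
  refine ENNReal.ofReal_le_of_le_toReal (le_of_forall_pos_le_add fun ε hε => ?_)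
  set η : ℝ := ε / 8 with hη
  have hη0 : 0 < η := by positivity
  obtain ⟨t, ht1, ht2, ht3⟩ := exists_cover K hfin (δ := ENNReal.ofReal η)
    (ENNReal.ofReal_pos.2 hη0) (ε := ENNReal.ofReal η) (ENNReal.ofReal_pos.2 hη0)
  set U : ℕ → Set X := fun n => thickening (η / 2 ^ (n + 2)) (t n) with hU
  set D : ℕ → ℝ := fun n => (ediam (t n)).toReal + η / 2 ^ (n + 1) with hD
  have hen : ∀ n, ediam (t n) ≠ ∞ := fun n => ne_top_of_le_ne_top ENNReal.ofReal_ne_top (ht2 n)
  have hD0 : ∀ n, 0 ≤ D n := fun n => add_nonneg ENNReal.toReal_nonneg (by positivity)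
  have hUD : ∀ n, ∀ x ∈ U n, ∀ y ∈ U n, dist x y ≤ D n := by
    intro n x hx y hy
    obtain ⟨x', hx', hxx⟩ := mem_thickening_iff.1 hx
    obtain ⟨y', hy', hyy⟩ := mem_thickening_iff.1 hy
    have h1 : dist x' y' ≤ (ediam (t n)).toReal := by
      rw [dist_edist]
      exact ENNReal.toReal_mono (hen n) (edist_le_ediam_of_mem hx' hy')
    have h2 : η / 2 ^ (n + 1) = 2 * (η / 2 ^ (n + 2)) := by
      rw [pow_succ 2 (n + 1)]; field_simp
    have h3 : dist x y ≤ dist x x' + dist x' y' + dist y' y := dist_triangle4 _ _ _ _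
    rw [dist_comm y' y] at h3
    show dist x y ≤ (ediam (t n)).toReal + η / 2 ^ (n + 1)
    rw [h2]; linarith
  have hcov : K ⊆ ⋃ n, U n := by
    intro x hx
    obtain ⟨n, hn⟩ := mem_iUnion.1 (ht1 hx)
    exact mem_iUnion.2 ⟨n, self_subset_thickening (by positivity) _ hn⟩
  obtain ⟨J, hJ⟩ := hK.elim_finite_subcover U (fun n => isOpen_thickening) hcov
  let G : SimpleGraph ℕ :=
    { Adj := fun i j => i ≠ j ∧ i ∈ J ∧ j ∈ J ∧ (K ∩ (U i ∩ U j)).Nonempty
      symm := ⟨fun i j h => ⟨h.1.symm, h.2.2.1, h.2.1, by rw [inter_comm (U j)]; exact h.2.2.2⟩⟩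
      loopless := ⟨fun i h => h.1 rfl⟩ }
  obtain ⟨ia, hia, haU⟩ := mem_iUnion₂.1 (hJ ha)
  have hreach : ∀ y ∈ K, ∀ j ∈ J, y ∈ U j → G.Reachable ia j := by
    intro y hy j hj hyj
    by_contra hnr
    have h1 := hKc (⋃ i ∈ {i | i ∈ J ∧ G.Reachable ia i}, U i)
      (⋃ i ∈ {i | i ∈ J ∧ ¬ G.Reachable ia i}, U i)
      (isOpen_biUnion fun i _ => isOpen_thickening) (isOpen_biUnion fun i _ => isOpen_thickening)
      (by
        intro z hz
        obtain ⟨i, hi, hzi⟩ := mem_iUnion₂.1 (hJ hz)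
        by_cases hr : G.Reachable ia i
        · exact Or.inl (mem_iUnion₂.2 ⟨i, ⟨hi, hr⟩, hzi⟩)
        · exact Or.inr (mem_iUnion₂.2 ⟨i, ⟨hi, hr⟩, hzi⟩))
      ⟨a, ha, mem_iUnion₂.2 ⟨ia, ⟨hia, SimpleGraph.Reachable.refl _⟩, haU⟩⟩
      ⟨y, hy, mem_iUnion₂.2 ⟨j, ⟨hj, hnr⟩, hyj⟩⟩
    obtain ⟨z, hzK, hz1, hz2⟩ := h1
    obtain ⟨i, ⟨hi, hir⟩, hzi⟩ := mem_iUnion₂.1 hz1
    obtain ⟨k, ⟨hk, hkr⟩, hzk⟩ := mem_iUnion₂.1 hz2
    have hne : i ≠ k := by rintro rfl; exact hkr hir
    have hadj : G.Adj i k := ⟨hne, hi, hk, z, hzK, hzi, hzk⟩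
    exact hkr (hir.trans hadj.reachable)
  obtain ⟨ib, hib, hbU⟩ := mem_iUnion₂.1 (hJ hb)
  obtain ⟨ic, hic, hcU⟩ := mem_iUnion₂.1 (hJ hc)
  have hpow : ∀ n : ℕ, η / 2 ^ (n + 1) ≤ η := fun n =>
    div_le_self hη0.le (one_le_pow₀ (by norm_num))
  have hM : ∀ i, D i ≤ 2 * η := by
    intro i
    have h1 : (ediam (t i)).toReal ≤ η := ENNReal.toReal_le_of_le_ofReal hη0.le (ht2 i)
    have h2 := hpow i
    show (ediam (t i)).toReal + η / 2 ^ (i + 1) ≤ 2 * η
    linarith
  obtain ⟨p, hp⟩ := three_point (G := G) J hD0 hUD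
    (fun i j hij => hij.2.2.2.mono inter_subset_right)
    (fun i j hij => ⟨hij.2.1, hij.2.2.1⟩) hM hia hic (hreach b hb ib hib hbU)
    (hreach c hc ic hic hcU).symm haU hbU hcU
  have hsum : ∑ i ∈ J, D i ≤ (μH[1] K).toReal + η + η := by
    have h1 : ∑ i ∈ J, D i = ∑ i ∈ J, (ediam (t i)).toReal + ∑ i ∈ J, η / 2 ^ (i + 1) :=
      Finset.sum_add_distrib
    have h2 : ∑ i ∈ J, (ediam (t i)).toReal ≤ (μH[1] K).toReal + η := by
      rw [← ENNReal.toReal_sum fun i _ => hen i]
      have h3 : ∑ i ∈ J, ediam (t i) ≤ μH[1] K + ENNReal.ofReal η :=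
        (ENNReal.sum_le_tsum J).trans ht3
      calc (∑ i ∈ J, ediam (t i)).toReal ≤ (μH[1] K + ENNReal.ofReal η).toReal :=
            ENNReal.toReal_mono (ENNReal.add_ne_top.2 ⟨hfin, ENNReal.ofReal_ne_top⟩) h3
        _ = (μH[1] K).toReal + η := by
            rw [ENNReal.toReal_add hfin ENNReal.ofReal_ne_top, ENNReal.toReal_ofReal hη0.le]
    have h4 : ∑ i ∈ J, η / 2 ^ (i + 1) ≤ η := by
      have h5 : HasSum (fun n : ℕ => η / 2 / 2 ^ n) η := hasSum_geometric_two' η
      have h6 : ∀ n : ℕ, η / 2 ^ (n + 1) = η / 2 / 2 ^ n := fun n => by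
        rw [pow_succ]; field_simp
      calc ∑ i ∈ J, η / 2 ^ (i + 1) = ∑ i ∈ J, η / 2 / 2 ^ i :=
            Finset.sum_congr rfl fun i _ => h6 i
        _ ≤ η := sum_le_hasSum J (fun i _ => by positivity) h5
    linarith
  have h1 := hs p
  have : ε = 8 * η := by rw [hη]; ring
  rw [this]
  linarith

end SteinerBall
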