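import Mathlib

open MeasureTheory Set Metric
open scoped ENNReal

namespace SteinerBall

variable {X : Type*} [MetricSpace X] [MeasurableSpace X] [BorelSpace X]

/-- `St` is a Steiner set for the terminals `A`: closed, `St ∪ A` connected, and of minimal
one-dimensional Hausdorff measure among all closed sets with that property. -/
def IsSteinerSet (St A : Set X) : Prop :=
  IsClosed St ∧ IsConnected (St ∪ A) ∧
    ∀ S : Set X, IsClosed S → IsConnected (S ∪ A) → μH[1] St ≤ μH[1] S

/-- The point `a` has degree one in `St`: small punctured neighbourhoods of `a` in `St` are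
connected (and nonempty). -/
def HasDegreeOne (St : Set X) (a : X) : Prop :=
  a ∈ St ∧ ∃ ε₀ > 0, ∀ ε ∈ Ioo 0 ε₀, IsConnected ((St ∩ ball a ε) \ {a})

/-- Admissible configurations: `St` is a full Steiner tree of finite length for the compact set
`A`, and the open ball of radius `r` about `x` contains no terminal. -/
structure Admissible (St A : Set X) (x : X) (r : ℝ) : Prop where
  rpos : 0 < r
  compact : IsCompact A
  steiner : IsSteinerSet St A
  finite : μH[1] St ≠ ∞
  tree : IsConnected St
  full : ∀ a ∈ A, HasDegreeOne St a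
  free : A ∩ ball x r = ∅

/-- The weak class: `St ∪ A` is connected, the ball contains no terminal, the length in the
ball is finite, and `St` is minimal among the closed sets which differ from it only inside
the ball. -/
structure LocMin (St A : Set X) (x : X) (r : ℝ) : Prop where
  rpos : 0 < r
  closedSt : IsClosed St
  closedA : IsClosed A
  conn : IsConnected (St ∪ A)
  free : A ∩ ball x r = ∅
  finite : μH[1] (St ∩ ball x r) ≠ ∞
  min : ∀ S : Set X, IsClosed S → IsConnected (S ∪ A) → S \ ball x r = St \ ball x r →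
    μH[1] (St ∩ ball x r) ≤ μH[1] (S ∩ ball x r)

theorem Admissible.locMin {St A : Set X} {x : X} {r : ℝ} (h : Admissible St A x r) :
    LocMin St A x r where
  rpos := h.rpos
  closedSt := h.steiner.1
  closedA := h.compact.isClosed
  conn := h.steiner.2.1
  free := h.free
  finite := ne_top_of_le_ne_top h.finite (measure_mono inter_subset_left)
  min := by
    intro S hS hSc hSe
    have h1 := h.steiner.2.2 S hS hSc
    have h2 : μH[1] (St ∩ ball x r) + μH[1] (St \ ball x r) = μH[1] St :=
      measure_inter_add_sdiff _ measurableSet_ball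
    have h3 : μH[1] (S ∩ ball x r) + μH[1] (S \ ball x r) = μH[1] S :=
      measure_inter_add_sdiff _ measurableSet_ball
    rw [← h2, ← h3, hSe] at h1
    have h4 : μH[1] (St \ ball x r) ≠ ∞ :=
      ne_top_of_le_ne_top h.finite (measure_mono sdiff_subset)
    exact (ENNReal.add_le_add_iff_right h4).1 h1

variable {St A : Set X} {x : X} {r : ℝ}

theorem LocMin.le_competitor (h : LocMin St A x r) {ρ : ℝ} (hρr : ρ < r) {K : Set X}
    (hKc : IsCompact K) (hKconn : IsConnected K) (hKs : K ⊆ closedBall x ρ)
    (hK : St ∩ sphere x ρ ⊆ K) (hne : (St ∩ sphere x ρ).Nonempty) :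
    μH[1] (St ∩ ball x ρ) ≤ μH[1] K := by
  have hKr : K ⊆ ball x r := hKs.trans (closedBall_subset_ball hρr)
  set S : Set X := (St \ ball x ρ) ∪ K with hSdef
  have hScl : IsClosed S := by
    refine IsClosed.union ?_ hKc.isClosed
    rw [sdiff_eq]
    exact h.closedSt.inter isOpen_ball.isClosed_compl
  obtain ⟨p, hpSt, hps⟩ := hne
  have hpK : p ∈ K := hK ⟨hpSt, hps⟩
  have hAs : ∀ y ∈ A, y ∉ closedBall x ρ := by
    intro y hy hyc
    have : y ∈ A ∩ ball x r := ⟨hy, closedBall_subset_ball hρr hyc⟩
    rw [h.free] at this; exact this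
  -- a set containing `K` contains the part of `St ∪ A` on the sphere
  have hsph : ∀ y ∈ St ∪ A, y ∈ closedBall x ρ → y ∉ ball x ρ → y ∈ K := by
    rintro y (hy | hy) hyc hyb
    · refine hK ⟨hy, ?_⟩
      rw [mem_closedBall] at hyc; rw [mem_ball, not_lt] at hyb
      exact mem_sphere.2 (le_antisymm hyc hyb)
    · exact absurd hyc (hAs y hy)
  have hconn : IsConnected (S ∪ A) := by
    refine ⟨⟨p, Or.inl (Or.inr hpK)⟩, ?_⟩
    -- asymmetric key statement
    have key : ∀ u v : Set X, IsClosed u → IsClosed v → S ∪ A ⊆ u ∪ v →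
        (S ∪ A) ∩ (u ∩ v) = ∅ → K ⊆ u → S ∪ A ⊆ u := by
      intro u v hu hv huv hdis hKu
      have hE := isPreconnected_iff_subset_of_disjoint_closed.1 h.conn.isPreconnected
      have hcl1 : IsClosed (closedBall x ρ ∪ u) := isClosed_closedBall.union hu
      have hcl2 : IsClosed (v ∩ (ball x ρ)ᶜ) := hv.inter isOpen_ball.isClosed_compl
      have hcov : St ∪ A ⊆ (closedBall x ρ ∪ u) ∪ (v ∩ (ball x ρ)ᶜ) := by
        intro y hy
        by_cases hyb : y ∈ ball x ρ
        · exact Or.inl (Or.inl (ball_subset_closedBall hyb))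
        · have hyS : y ∈ S ∪ A := by
            rcases hy with hy | hy
            · exact Or.inl (Or.inl ⟨hy, hyb⟩)
            · exact Or.inr hy
          rcases huv hyS with hy' | hy'
          · exact Or.inl (Or.inr hy')
          · exact Or.inr ⟨hy', hyb⟩
      have hempty : (St ∪ A) ∩ ((closedBall x ρ ∪ u) ∩ (v ∩ (ball x ρ)ᶜ)) = ∅ := by
        rw [eq_empty_iff_forall_notMem]
        rintro y ⟨hyE, hyW, hyv, hyb⟩
        have hyS : y ∈ S ∪ A := by
          rcases hyE with hy | hy
          · exact Or.inl (Or.inl ⟨hy, hyb⟩)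
          · exact Or.inr hy
        have hyu : y ∈ u := by
          rcases hyW with hy | hy
          · exact hKu (hsph y hyE hy hyb)
          · exact hy
        have : y ∈ (S ∪ A) ∩ (u ∩ v) := ⟨hyS, hyu, hyv⟩
        rw [hdis] at this; exact this
      rcases hE _ _ hcl1 hcl2 hcov hempty with h1 | h1
      · rintro y ((⟨hy, hyb⟩ | hy) | hy)
        · rcases h1 (Or.inl hy) with h2 | h2
          · exact hKu (hsph y (Or.inl hy) h2 hyb)
          · exact h2
        · exact hKu hy
        · rcases h1 (Or.inr hy) with h2 | h2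
          · exact absurd h2 (hAs y hy)
          · exact h2
      · exfalso
        have hpv := (h1 (Or.inl hpSt)).1
        have : p ∈ (S ∪ A) ∩ (u ∩ v) := ⟨Or.inl (Or.inr hpK), hKu hpK, hpv⟩
        rw [hdis] at this; exact this
    rw [isPreconnected_iff_subset_of_disjoint_closed]
    intro u v hu hv huv hdis
    have hKuv := isPreconnected_iff_subset_of_disjoint_closed.1 hKconn.isPreconnected u v hu hv
      ((subset_union_right.trans subset_union_left).trans huv) (by
        rw [eq_empty_iff_forall_notMem]
        rintro y ⟨hyK, hyuv⟩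
        have : y ∈ (S ∪ A) ∩ (u ∩ v) := ⟨Or.inl (Or.inr hyK), hyuv⟩
        rw [hdis] at this; exact this)
    rcases hKuv with h1 | h1
    · exact Or.inl (key u v hu hv huv hdis h1)
    · exact Or.inr (key v u hv hu (by rwa [union_comm v u]) (by rwa [inter_comm v u]) h1)
  have hout : S \ ball x r = St \ ball x r := by
    ext y
    constructor
    · rintro ⟨(⟨hy, _⟩ | hy), hyr⟩
      · exact ⟨hy, hyr⟩
      · exact absurd (hKr hy) hyr
    · rintro ⟨hy, hyr⟩
      exact ⟨Or.inl ⟨hy, fun hb => hyr (ball_subset_ball hρr.le hb)⟩, hyr⟩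
  have hmin := h.min S hScl hconn hout
  have h1 : μH[1] ((St ∩ ball x r) ∩ ball x ρ) + μH[1] ((St ∩ ball x r) \ ball x ρ) =
      μH[1] (St ∩ ball x r) := measure_inter_add_sdiff _ measurableSet_ball
  have h2 : (St ∩ ball x r) ∩ ball x ρ = St ∩ ball x ρ := by
    rw [inter_assoc, inter_eq_right.2 (ball_subset_ball hρr.le)]
  have h3 : μH[1] (S ∩ ball x r) ≤ μH[1] ((St ∩ ball x r) \ ball x ρ) + μH[1] K := by
    refine le_trans (measure_mono ?_) (measure_union_le _ _)
    rintro y ⟨(⟨hy, hyb⟩ | hy), hyr⟩
    · exact Or.inl ⟨⟨hy, hyr⟩, hyb⟩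
    · exact Or.inr hy
  have h4 : μH[1] ((St ∩ ball x r) \ ball x ρ) ≠ ∞ :=
    ne_top_of_le_ne_top h.finite (measure_mono sdiff_subset)
  have h5 := hmin.trans h3
  rw [← h1, h2, add_comm] at h5
  exact (ENNReal.add_le_add_iff_left h4).1 h5

theorem LocMin.eq_zero_of_sphere (h : LocMin St A x r) {ρ : ℝ} (hρr : ρ < r)
    (he : St ∩ sphere x ρ = ∅) : μH[1] (St ∩ ball x ρ) = 0 := by
  have hE := isPreconnected_iff_subset_of_disjoint_closed.1 h.conn.isPreconnected
  have hAs : ∀ y ∈ A, y ∉ closedBall x ρ := by
    intro y hy hyc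
    have : y ∈ A ∩ ball x r := ⟨hy, closedBall_subset_ball hρr hyc⟩
    rw [h.free] at this; exact this
  have hcov : St ∪ A ⊆ closedBall x ρ ∪ (ball x ρ)ᶜ := by
    intro y _
    by_cases hy : y ∈ ball x ρ
    · exact Or.inl (ball_subset_closedBall hy)
    · exact Or.inr hy
  have hdis : (St ∪ A) ∩ (closedBall x ρ ∩ (ball x ρ)ᶜ) = ∅ := by
    rw [eq_empty_iff_forall_notMem]
    rintro y ⟨hy | hy, hyc, hyb⟩
    · have : y ∈ St ∩ sphere x ρ := by
        refine ⟨hy, ?_⟩
        rw [mem_closedBall] at hyc
        rw [mem_compl_iff, mem_ball, not_lt] at hyb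
        exact mem_sphere.2 (le_antisymm hyc hyb)
      rw [he] at this; exact this
    · exact hAs y hy hyc
  rcases hE _ _ isClosed_closedBall isOpen_ball.isClosed_compl hcov hdis with h1 | h1
  · -- everything inside: no terminals, compare with a point
    have hA : A = ∅ := by
      rw [eq_empty_iff_forall_notMem]
      exact fun y hy => hAs y hy (h1 (Or.inr hy))
    have h2 := h.min {x} isClosed_singleton (by rw [hA, union_empty]; exact isConnected_singleton)
      (by
        ext y
        constructor
        · rintro ⟨hy, hyr⟩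
          rw [mem_singleton_iff] at hy
          subst hy
          exact absurd (mem_ball_self h.rpos) hyr
        · rintro ⟨hy, hyr⟩
          exact absurd (closedBall_subset_ball hρr (h1 (Or.inl hy))) hyr)
    have h3 : μH[1] (({x} : Set X) ∩ ball x r) = 0 := by
      haveI : NullSingletonClass (μH[1] : Measure X) :=
        MeasureTheory.Measure.nullSingletonClass_hausdorff X one_pos
      exact measure_mono_null inter_subset_left (measure_singleton x)
    rw [h3] at h2
    exact measure_mono_null (inter_subset_inter_right _ (ball_subset_ball hρr.le))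
      (le_antisymm h2 bot_le)
  · have : St ∩ ball x ρ = ∅ := by
      rw [eq_empty_iff_forall_notMem]
      rintro y ⟨hy, hyb⟩
      exact (h1 (Or.inl hy)) hyb
    rw [this]; exact measure_empty

end SteinerBall
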