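import Mathlib

open MeasureTheory Set Filter Topology
open scoped ENNReal NNReal

namespace SteinerBall

variable {X : Type*} [MetricSpace X] [MeasurableSpace X] [BorelSpace X]

/-- A countable cover by small sets, almost realising the Hausdorff measure. -/
theorem exists_cover (S : Set X) (hS : μH[1] S ≠ ∞) {δ : ℝ≥0∞} (hδ : 0 < δ) {ε : ℝ≥0∞}
    (hε : 0 < ε) :
    ∃ t : ℕ → Set X, S ⊆ ⋃ n, t n ∧ (∀ n, Metric.ediam (t n) ≤ δ) ∧
      ∑' n, Metric.ediam (t n) ≤ μH[1] S + ε := by
  have h1 : (⨅ (t : ℕ → Set X) (_ : S ⊆ ⋃ n, t n) (_ : ∀ n, Metric.ediam (t n) ≤ δ),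
          ∑' n, ⨆ _ : (t n).Nonempty, Metric.ediam (t n) ^ (1 : ℝ)) ≤ μH[1] S := by
    rw [MeasureTheory.Measure.hausdorffMeasure_apply]
    exact le_iSup₂_of_le δ hδ le_rfl
  have h2 : (⨅ (t : ℕ → Set X) (_ : S ⊆ ⋃ n, t n) (_ : ∀ n, Metric.ediam (t n) ≤ δ),
          ∑' n, ⨆ _ : (t n).Nonempty, Metric.ediam (t n) ^ (1 : ℝ)) < μH[1] S + ε :=
    lt_of_le_of_lt h1 (ENNReal.lt_add_right hS hε.ne')
  simp only [iInf_lt_iff] at h2
  obtain ⟨t, ht1, ht2, ht3⟩ := h2
  refine ⟨t, ht1, ht2, le_of_eq_of_le ?_ ht3.le⟩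
  refine tsum_congr fun n => ?_
  rcases (t n).eq_empty_or_nonempty with h | h
  · simp [h]
  · simp [h]

/-- Eilenberg inequality in dimension one for a 1-Lipschitz real function. -/
theorem eilenberg (S : Set X) (f : X → ℝ) (hf : LipschitzWith 1 f) :
    ∫⁻ ρ, ((S ∩ f ⁻¹' {ρ}).encard : ℝ≥0∞) ≤ μH[1] S := by
  by_cases hS : μH[1] S = ∞
  · rw [hS]; exact le_top
  have hpos : ∀ k : ℕ, (0 : ℝ≥0∞) < ((k : ℝ≥0∞) + 1)⁻¹ := fun k => by
    simp [ENNReal.inv_pos]
  choose t ht1 ht2 ht3 using fun k : ℕ => exists_cover S hS (hpos k) (hpos k)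
  let g : ℕ → ℝ → ℝ≥0∞ := fun k ρ =>
    ∑' n, (toMeasurable volume (f '' t k n)).indicator (fun _ => (1 : ℝ≥0∞)) ρ
  have hgm : ∀ k, Measurable (g k) := fun k =>
    Measurable.tsum fun n =>
      measurable_const.indicator (measurableSet_toMeasurable _ _)
  have hgi : ∀ k, ∫⁻ ρ, g k ρ ≤ μH[1] S + ((k : ℝ≥0∞) + 1)⁻¹ := by
    intro k
    rw [lintegral_tsum fun n =>
      (measurable_const.indicator (measurableSet_toMeasurable _ _)).aemeasurable]
    refine le_trans (ENNReal.tsum_le_tsum fun n => ?_) (ht3 k)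
    rw [lintegral_indicator (measurableSet_toMeasurable _ _)]
    simp only [lintegral_const, Measure.restrict_apply MeasurableSet.univ, univ_inter, one_mul]
    rw [measure_toMeasurable]
    refine (Real.volume_le_diam _).trans ?_
    have := hf.ediam_image_le (t k n)
    simpa using this
  have hpt : ∀ ρ, ((S ∩ f ⁻¹' {ρ}).encard : ℝ≥0∞) ≤ liminf (fun k => g k ρ) atTop := by
    intro ρ
    -- it suffices to bound every natural number below
    have key : ∀ T : Finset X, (T : Set X) ⊆ S ∩ f ⁻¹' {ρ} →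
        (T.card : ℝ≥0∞) ≤ liminf (fun k => g k ρ) atTop := by
      intro T hT
      -- separation
      obtain ⟨η, hη0, hη⟩ : ∃ η : ℝ≥0∞, 0 < η ∧ ∀ a ∈ T, ∀ b ∈ T, a ≠ b → η < edist a b := by
        classical
        have : ∃ η : ℝ≥0∞, 0 < η ∧ ∀ p ∈ (T ×ˢ T).filter (fun p => p.1 ≠ p.2),
            η < edist p.1 p.2 := by
          have hfin : ∀ U : Finset (X × X), (∀ p ∈ U, p.1 ≠ p.2) →
              ∃ η : ℝ≥0∞, 0 < η ∧ ∀ p ∈ U, η < edist p.1 p.2 := by
            intro U
            induction U using Finset.induction_on with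
            | empty => intro _; exact ⟨1, one_pos, by simp⟩
            | insert p U hp ih =>
              intro h
              obtain ⟨η, h0, h1⟩ := ih fun q hq => h q (Finset.mem_insert_of_mem hq)
              have hp0 : 0 < edist p.1 p.2 := edist_pos.2 (h p (Finset.mem_insert_self _ _))
              obtain ⟨η', h2, h3⟩ := exists_between hp0
              refine ⟨min η η', lt_min h0 h2, fun q hq => ?_⟩
              rcases Finset.mem_insert.1 hq with rfl | hq
              · exact lt_of_le_of_lt (min_le_right _ _) h3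
              · exact lt_of_le_of_lt (min_le_left _ _) (h1 q hq)
          exact hfin _ fun p hp => (Finset.mem_filter.1 hp).2
        obtain ⟨η, h0, h1⟩ := this
        exact ⟨η, h0, fun a ha b hb hab => h1 (a, b) (by simp [ha, hb, hab])⟩
      have hev : ∀ᶠ k : ℕ in atTop, ((k : ℝ≥0∞) + 1)⁻¹ < η := by
        have h1 : Tendsto (fun k : ℕ => ((k : ℝ≥0∞) + 1)⁻¹) atTop (𝓝 0) := by
          have := ENNReal.tendsto_inv_nat_nhds_zero.comp (tendsto_add_atTop_nat 1)
          refine this.congr fun k => ?_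
          simp
        exact h1.eventually (gt_mem_nhds hη0)
      refine le_liminf_of_le (by isBoundedDefault) (hev.mono fun k hk => ?_)
      -- every point of T lies in some t k n, different points in different sets
      have hmem : ∀ a ∈ T, ∃ n, a ∈ t k n := fun a ha => by
        have := ht1 k (hT ha).1
        simpa using this
      choose! N hN using hmem
      have hinj : Set.InjOn N T := by
        intro a ha b hb hab
        by_contra hne
        have h1 : edist a b ≤ Metric.ediam (t k (N a)) :=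
          Metric.edist_le_ediam_of_mem (hN a ha) (by rw [hab]; exact hN b hb)
        exact absurd (lt_of_lt_of_le (hη a ha b hb hne) (h1.trans (ht2 k _))) (not_lt.2 hk.le)
      classical
      calc (T.card : ℝ≥0∞) = ∑ n ∈ T.image N, (1 : ℝ≥0∞) := by
            rw [Finset.sum_const, Finset.card_image_of_injOn hinj]; simp
        _ ≤ ∑ n ∈ T.image N,
            (toMeasurable volume (f '' t k n)).indicator (fun _ => (1 : ℝ≥0∞)) ρ := by
            refine Finset.sum_le_sum fun n hn => ?_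
            obtain ⟨a, ha, rfl⟩ := Finset.mem_image.1 hn
            have : ρ ∈ toMeasurable volume (f '' t k (N a)) :=
              subset_toMeasurable _ _ ⟨a, hN a ha, (hT ha).2⟩
            rw [indicator_of_mem this]
        _ ≤ g k ρ := ENNReal.sum_le_tsum _
    by_cases hfin : (S ∩ f ⁻¹' {ρ}).Finite
    · have := key hfin.toFinset (by simp)
      rw [hfin.encard_eq_coe_toFinset_card]
      simpa using this
    · have hinf : (S ∩ f ⁻¹' {ρ}).Infinite := hfin
      rw [hinf.encard_eq]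
      have : ∀ m : ℕ, (m : ℝ≥0∞) ≤ liminf (fun k => g k ρ) atTop := by
        intro m
        obtain ⟨T, hT, hc⟩ := hinf.exists_subset_card_eq m
        rw [← hc]; exact key T hT
      have h2 : liminf (fun k => g k ρ) atTop = ⊤ := ENNReal.eq_top_of_forall_nnreal_le
        fun r => by
          obtain ⟨m, hm⟩ := exists_nat_ge r
          refine le_trans ?_ (this m)
          exact_mod_cast hm
      rw [h2]; simp
  calc ∫⁻ ρ, ((S ∩ f ⁻¹' {ρ}).encard : ℝ≥0∞) ≤ ∫⁻ ρ, liminf (fun k => g k ρ) atTop :=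
        lintegral_mono hpt
    _ ≤ liminf (fun k => ∫⁻ ρ, g k ρ) atTop := lintegral_liminf_le hgm
    _ ≤ liminf (fun k : ℕ => μH[1] S + ((k : ℝ≥0∞) + 1)⁻¹) atTop :=
        liminf_le_liminf (Eventually.of_forall hgi) (by isBoundedDefault) (by isBoundedDefault)
    _ = μH[1] S := by
        have h1 : Tendsto (fun k : ℕ => μH[1] S + ((k : ℝ≥0∞) + 1)⁻¹) atTop (𝓝 (μH[1] S + 0)) := by
          refine tendsto_const_nhds.add ?_
          have := ENNReal.tendsto_inv_nat_nhds_zero.comp (tendsto_add_atTop_nat 1)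
          refine this.congr fun k => ?_
          simp
        rw [h1.liminf_eq, add_zero]

/-- If the fibres of `S` over `B` have at least `m` points, then the part of `S` over `B`
has measure at least `m` times the length of `B`. -/
theorem eilenberg_nat (S : Set X) (f : X → ℝ) (hf : LipschitzWith 1 f) (B : Set ℝ)
    (hB : MeasurableSet B) (m : ℕ) (h : ∀ ρ ∈ B, (m : ℕ∞) ≤ (S ∩ f ⁻¹' {ρ}).encard) :
    (m : ℝ≥0∞) * volume B ≤ μH[1] (S ∩ f ⁻¹' B) := by
  refine le_trans ?_ (eilenberg (S ∩ f ⁻¹' B) f hf)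
  rw [← lintegral_indicator_const hB]
  refine lintegral_mono fun ρ => ?_
  by_cases hρ : ρ ∈ B
  · rw [indicator_of_mem hρ]
    have h1 : S ∩ f ⁻¹' B ∩ f ⁻¹' {ρ} = S ∩ f ⁻¹' {ρ} := by
      ext y; constructor
      · rintro ⟨⟨a, _⟩, c⟩; exact ⟨a, c⟩
      · rintro ⟨a, c⟩; exact ⟨⟨a, by rw [mem_preimage, show f y = ρ from c]; exact hρ⟩, c⟩
    rw [h1]
    have h2 := ENat.toENNReal_le.2 (h ρ hρ)
    rwa [ENat.toENNReal_coe] at h2
  · rw [indicator_of_notMem hρ]; exact bot_le

end SteinerBall
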