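import Pool.Agent.Work.MP_323107_co.Nets

open MeasureTheory Set Metric
open scoped ENNReal

namespace SteinerBall

set_option linter.unusedSectionVars false

variable {E : Type*} [NormedAddCommGroup E] [InnerProductSpace ℝ E] [MeasurableSpace E]
  [BorelSpace E] [FiniteDimensional ℝ E]

/-- volume form of the packing bound for points on a sphere -/
theorem packing_volume [Nontrivial E] (x : E) {ρ h : ℝ} (h0 : 0 < h) (hρ : h < ρ) (P : Finset E)
    (hP : ∀ v ∈ P, dist v x = ρ) (hsep : ∀ a ∈ P, ∀ b ∈ P, a ≠ b → 2 * h < dist a b) :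
    (P.card : ℝ) * h ^ (Module.finrank ℝ E) + (ρ - h) ^ (Module.finrank ℝ E) ≤
      (ρ + h) ^ (Module.finrank ℝ E) := by
  classical
  set μ : Measure E := MeasureTheory.Measure.addHaar with hμ
  set d := Module.finrank ℝ E with hd
  have hω0 : μ (ball (0 : E) 1) ≠ 0 := (measure_ball_pos μ 0 one_pos).ne'
  have hω1 : μ (ball (0 : E) 1) ≠ ∞ := measure_ball_lt_top.ne
  have hsub : (⋃ v ∈ P, ball v h) ∪ ball x (ρ - h) ⊆ ball x (ρ + h) := by
    refine union_subset (iUnion₂_subset fun v hv => ?_) (ball_subset_ball (by linarith))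
    refine ball_subset_ball' ?_
    rw [hP v hv]; linarith
  have hdisj : Disjoint (⋃ v ∈ P, ball v h) (ball x (ρ - h)) := by
    rw [Set.disjoint_iUnion₂_left]
    intro v hv
    exact ball_disjoint_ball (by rw [hP v hv]; linarith)
  have h1 : μ (⋃ v ∈ P, ball v h) = (P.card : ℝ≥0∞) * (ENNReal.ofReal (h ^ d) *
      μ (ball (0 : E) 1)) := by
    rw [measure_biUnion_finset (fun a ha b hb hab => ball_disjoint_ball
      (by have := hsep a ha b hb hab; linarith)) (fun v _ => measurableSet_ball)]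
    simp_rw [MeasureTheory.Measure.addHaar_ball μ _ h0.le]
    rw [Finset.sum_const, nsmul_eq_mul]
  have h2 : μ ((⋃ v ∈ P, ball v h) ∪ ball x (ρ - h)) ≤ μ (ball x (ρ + h)) := measure_mono hsub
  rw [measure_union hdisj measurableSet_ball, h1,
    MeasureTheory.Measure.addHaar_ball μ x (by linarith : (0 : ℝ) ≤ ρ - h),
    MeasureTheory.Measure.addHaar_ball μ x (by linarith : (0 : ℝ) ≤ ρ + h), ← mul_assoc,
    ← add_mul] at h2
  have h3 := (ENNReal.mul_le_mul_iff_left hω0 hω1).1 h2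
  have hn : (P.card : ℝ≥0∞) = ENNReal.ofReal (P.card : ℝ) := by simp
  rw [hn, ← ENNReal.ofReal_mul (by positivity), ← ENNReal.ofReal_add (by positivity)
    (pow_nonneg (by linarith) _)] at h3
  exact (ENNReal.ofReal_le_ofReal_iff (pow_nonneg (by linarith) _)).1 h3

theorem pow_sub_pow_le {a b : ℝ} (hb : 0 ≤ b) (hab : b ≤ a) (m : ℕ) :
    a ^ (m + 1) - b ^ (m + 1) ≤ (a - b) * ((m + 1 : ℕ) : ℝ) * a ^ m := by
  induction m with
  | zero => simp
  | succ m ih =>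
    have ha : 0 ≤ a := hb.trans hab
    have h1 : b ^ (m + 1) ≤ a ^ (m + 1) := pow_le_pow_left₀ hb hab _
    have h2 : b * (a ^ (m + 1) - b ^ (m + 1)) ≤ a * (a ^ (m + 1) - b ^ (m + 1)) :=
      mul_le_mul_of_nonneg_right hab (by linarith)
    have h3 : a * (a ^ (m + 1) - b ^ (m + 1)) ≤ a * ((a - b) * ((m + 1 : ℕ) : ℝ) * a ^ m) :=
      mul_le_mul_of_nonneg_left ih ha
    have h4 : a ^ (m + 1 + 1) - b ^ (m + 1 + 1) =
        (a - b) * a ^ (m + 1) + b * (a ^ (m + 1) - b ^ (m + 1)) := by ring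
    have h5 : a * ((a - b) * ((m + 1 : ℕ) : ℝ) * a ^ m) =
        (a - b) * ((m + 1 : ℕ) : ℝ) * a ^ (m + 1) := by ring
    rw [h4]
    push_cast at *
    nlinarith

/-- `m + 1` is the dimension -/
theorem packing {m : ℕ} (hm : 1 ≤ m) (hd : Module.finrank ℝ E = m + 1) (x : E) {ρ h : ℝ}
    (h0 : 0 < h) (hρ : h < ρ) (P : Finset E)
    (hP : ∀ v ∈ P, dist v x = ρ) (hsep : ∀ a ∈ P, ∀ b ∈ P, a ≠ b → 2 * h < dist a b) :
    (P.card : ℝ) * h ^ m < 2 * (m + 1) * (2 * ρ) ^ m := by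
  have hnt : Nontrivial E := Module.nontrivial_of_finrank_pos (R := ℝ) (by omega)
  have h1 := packing_volume x h0 hρ P hP hsep
  rw [hd] at h1
  have h2 := pow_sub_pow_le (a := ρ + h) (b := ρ - h) (by linarith) (by linarith) m
  have h3 : (ρ + h) ^ m < (2 * ρ) ^ m :=
    pow_lt_pow_left₀ (by linarith) (by linarith) (by omega)
  have h4 : (P.card : ℝ) * h ^ (m + 1) ≤ (2 * h) * ((m + 1 : ℕ) : ℝ) * (ρ + h) ^ m := by
    have : (ρ + h) - (ρ - h) = 2 * h := by ring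
    rw [this] at h2; linarith
  have h5 : (2 * h) * ((m + 1 : ℕ) : ℝ) * (ρ + h) ^ m <
      (2 * h) * ((m + 1 : ℕ) : ℝ) * (2 * ρ) ^ m :=
    mul_lt_mul_of_pos_left h3 (by positivity)
  have h6 : h * ((P.card : ℝ) * h ^ m) < h * (2 * (m + 1) * (2 * ρ) ^ m) := by
    calc h * ((P.card : ℝ) * h ^ m) = (P.card : ℝ) * h ^ (m + 1) := by ring
      _ < (2 * h) * ((m + 1 : ℕ) : ℝ) * (2 * ρ) ^ m := lt_of_le_of_lt h4 h5
      _ = h * (2 * (m + 1) * (2 * ρ) ^ m) := by push_cast; ring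
  exact lt_of_mul_lt_mul_left h6 h0.le

/-- among `n` points on a sphere two are close -/
theorem exists_close {m : ℕ} (hm : 1 ≤ m) (hd : Module.finrank ℝ E = m + 1) (x : E) {ρ : ℝ}
    (hρ : 0 < ρ) (P : Finset E) (hP : ∀ v ∈ P, dist v x = ρ) (h2 : 2 ≤ P.card) :
    ∃ a ∈ P, ∃ b ∈ P, a ≠ b ∧
      dist a b ≤ 4 * ρ * ((2 * (m + 1) : ℝ) / P.card) ^ (1 / (m : ℝ)) := by
  by_contra hcon
  push Not at hcon
  set n : ℝ := (P.card : ℝ) with hn
  have hn0 : 0 < n := by rw [hn]; exact_mod_cast (by omega : 0 < P.card)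
  set s : ℝ := 4 * ρ * ((2 * (m + 1) : ℝ) / n) ^ (1 / (m : ℝ)) with hs
  have hq : (0 : ℝ) < (2 * (m + 1) : ℝ) / n := by positivity
  have hs0 : 0 < s := by
    rw [hs]; exact mul_pos (by positivity) (Real.rpow_pos_of_pos hq _)
  by_cases hs2 : 2 * ρ ≤ s
  · obtain ⟨a, ha, b, hb, hab⟩ := Finset.one_lt_card.1 (by omega : 1 < P.card)
    have h3 := hcon a ha b hb hab
    have h4 : dist a b ≤ dist a x + dist x b := dist_triangle _ _ _
    rw [dist_comm x b, hP a ha, hP b hb] at h4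
    linarith
  · push Not at hs2
    have h5 := packing hm hd x (half_pos hs0) (by linarith : s / 2 < ρ) P hP
      (fun a ha b hb hab => by have := hcon a ha b hb hab; linarith)
    have h6 : (s / 2) ^ m = (2 * ρ) ^ m * ((2 * (m + 1) : ℝ) / n) := by
      have : s / 2 = (2 * ρ) * ((2 * (m + 1) : ℝ) / n) ^ (1 / (m : ℝ)) := by rw [hs]; ring
      rw [this, mul_pow, ← Real.rpow_natCast (((2 * (m + 1) : ℝ) / n) ^ (1 / (m : ℝ))),
        ← Real.rpow_mul hq.le, one_div_mul_cancel (by positivity), Real.rpow_one]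
    rw [h6] at h5
    have h7 : n * ((2 * ρ) ^ m * ((2 * (m + 1) : ℝ) / n)) = 2 * (m + 1) * (2 * ρ) ^ m := by
      field_simp
    rw [h7] at h5
    exact lt_irrefl _ h5

theorem net_merge {m : ℕ} (hm : 1 ≤ m) (hd : Module.finrank ℝ E = m + 1) (x : E) {ρ : ℝ}
    (hρ : 0 < ρ) (n : ℕ) : ∀ P : Finset E, (∀ v ∈ P, dist v x = ρ) → P.card = n + 1 →
      ∀ a ∈ P, Net (P : Set E) x ρ
        (∑ k ∈ Finset.range n, 4 * ρ * ((2 * (m + 1) : ℝ) / (k + 2 : ℕ)) ^ (1 / (m : ℝ))) a := by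
  classical
  induction n with
  | zero =>
    intro P hP hc a ha
    obtain ⟨v, rfl⟩ := Finset.card_eq_one.1 hc
    rw [Finset.mem_singleton] at ha
    subst ha
    have h1 := net_singleton x a (mem_closedBall.2 (hP a (Finset.mem_singleton_self a)).le)
    simpa using h1
  | succ n ih =>
    intro P hP hc a ha
    obtain ⟨p, hp, q, hq, hpq, hclose⟩ := exists_close hm hd x hρ P hP (by omega)
    have hc' : (P.erase q).card = n + 1 := by rw [Finset.card_erase_of_mem hq]; omega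
    have h1 := ih (P.erase q) (fun v hv => hP v (Finset.mem_of_mem_erase hv)) hc' p
      (Finset.mem_erase.2 ⟨hpq, hp⟩)
    have h2 := h1.extend (Finset.sum_nonneg fun k _ => by positivity)
      (mem_closedBall.2 (hP q hq).le)
    refine h2.mono ?_ ?_ ?_
    · intro v hv
      by_cases hvq : v = q
      · subst hvq; exact Or.inl rfl
      · exact Or.inr (Or.inr (by
          rw [Finset.mem_coe, Finset.mem_erase]; exact ⟨hvq, hv⟩))
    · by_cases haq : a = q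
      · subst haq; exact Or.inl rfl
      · exact Or.inr (Or.inr (by
          rw [Finset.mem_coe, Finset.mem_erase]; exact ⟨haq, ha⟩))
    · rw [Finset.sum_range_succ]
      rw [hc] at hclose
      linarith

/-- sum of powers -/
theorem sum_rpow_le {α : ℝ} (h0 : 0 < α) (h1 : α ≤ 1) (n : ℕ) :
    ∑ k ∈ Finset.range n, ((k + 2 : ℕ) : ℝ) ^ (α - 1) ≤ ((n + 1 : ℕ) : ℝ) ^ α / α := by
  induction n with
  | zero => simp; positivity
  | succ n ih =>
    rw [Finset.sum_range_succ]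
    have hk : (0 : ℝ) < ((n + 2 : ℕ) : ℝ) := by positivity
    have hb := rpow_one_add_le_one_add_mul_self (s := -(1 / ((n + 2 : ℕ) : ℝ)))
      (by
        rw [neg_le_neg_iff, div_le_one hk]
        push_cast; linarith [(Nat.cast_nonneg n : (0 : ℝ) ≤ n)]) h0.le h1
    have hq : 1 + -(1 / ((n + 2 : ℕ) : ℝ)) = ((n + 1 : ℕ) : ℝ) / ((n + 2 : ℕ) : ℝ) := by
      field_simp; push_cast; ring
    rw [hq, Real.div_rpow (by positivity) hk.le] at hb
    have hkα : 0 < ((n + 2 : ℕ) : ℝ) ^ α := Real.rpow_pos_of_pos hk _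
    rw [div_le_iff₀ hkα] at hb
    have hsub : ((n + 2 : ℕ) : ℝ) ^ (α - 1) = ((n + 2 : ℕ) : ℝ) ^ α / ((n + 2 : ℕ) : ℝ) := by
      rw [Real.rpow_sub hk, Real.rpow_one]
    have h2 : ((n + 1 : ℕ) : ℝ) ^ α + α * ((n + 2 : ℕ) : ℝ) ^ (α - 1) ≤
        ((n + 2 : ℕ) : ℝ) ^ α := by
      rw [hsub]
      have : (1 + α * -(1 / ((n + 2 : ℕ) : ℝ))) * ((n + 2 : ℕ) : ℝ) ^ α =
        ((n + 2 : ℕ) : ℝ) ^ α - α * (((n + 2 : ℕ) : ℝ) ^ α / ((n + 2 : ℕ) : ℝ)) := by ring
      linarith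
    rw [le_div_iff₀ h0] at ih ⊢
    have h3 : ((n + 1 + 1 : ℕ) : ℝ) = ((n + 2 : ℕ) : ℝ) := by norm_cast
    rw [h3, add_mul]
    linarith

theorem two_mul_le_three_pow (m : ℕ) (hm : 2 ≤ m) : 2 * (m + 1) ≤ 3 ^ m := by
  induction m, hm using Nat.le_induction with
  | base => norm_num
  | succ k hk ih => rw [pow_succ]; omega

theorem net_mst {m : ℕ} (hm : 2 ≤ m) (hd : Module.finrank ℝ E = m + 1) (x : E) {ρ : ℝ}
    (hρ : 0 < ρ) (P : Finset E) (hP : ∀ v ∈ P, dist v x = ρ) (hne : P.Nonempty) :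
    ∃ a, Net (P : Set E) x ρ (24 * ρ * (P.card : ℝ) ^ (1 - 1 / (m : ℝ))) a := by
  obtain ⟨a, ha⟩ := hne
  refine ⟨a, ?_⟩
  have hc : P.card = (P.card - 1) + 1 := by
    have := Finset.card_pos.2 ⟨a, ha⟩; omega
  have h1 := net_merge (by omega : 1 ≤ m) hd x hρ (P.card - 1) P hP hc a ha
  refine h1.mono (subset_insert _ _) (mem_insert _ _) ?_
  have hm0 : (0 : ℝ) < m := by exact_mod_cast (by omega : 0 < m)
  have hm2 : (2 : ℝ) ≤ m := by exact_mod_cast hm
  set α : ℝ := 1 - 1 / (m : ℝ) with hα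
  have hα0 : 1 / 2 ≤ α := by
    rw [hα]
    have : 1 / (m : ℝ) ≤ 1 / 2 := one_div_le_one_div_of_le (by norm_num) hm2
    linarith
  have hα1 : α ≤ 1 := by rw [hα]; have : 0 < 1 / (m : ℝ) := by positivity
                         linarith
  have h3 : (2 * (m + 1) : ℝ) ^ (1 / (m : ℝ)) ≤ 3 := by
    have h4 : (2 * (m + 1) : ℝ) ≤ 3 ^ (m : ℝ) := by
      rw [Real.rpow_natCast]
      exact_mod_cast two_mul_le_three_pow m hm
    calc (2 * (m + 1) : ℝ) ^ (1 / (m : ℝ)) ≤ ((3 : ℝ) ^ (m : ℝ)) ^ (1 / (m : ℝ)) :=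
          Real.rpow_le_rpow (by positivity) h4 (by positivity)
      _ = 3 := by rw [← Real.rpow_mul (by norm_num), mul_one_div_cancel hm0.ne', Real.rpow_one]
  have hterm : ∀ k : ℕ, 4 * ρ * ((2 * (m + 1) : ℝ) / (k + 2 : ℕ)) ^ (1 / (m : ℝ)) ≤
      12 * ρ * ((k + 2 : ℕ) : ℝ) ^ (α - 1) := by
    intro k
    have hk : (0 : ℝ) < ((k + 2 : ℕ) : ℝ) := by positivity
    rw [Real.div_rpow (by positivity) hk.le]
    have h5 : ((k + 2 : ℕ) : ℝ) ^ (α - 1) = (((k + 2 : ℕ) : ℝ) ^ (1 / (m : ℝ)))⁻¹ := by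
      rw [← Real.rpow_neg hk.le, hα]; congr 1; ring
    rw [h5, div_eq_mul_inv, ← mul_assoc]
    refine mul_le_mul_of_nonneg_right ?_ (by positivity)
    nlinarith
  calc ∑ k ∈ Finset.range (P.card - 1), 4 * ρ * ((2 * (m + 1) : ℝ) / (k + 2 : ℕ)) ^ (1 / (m : ℝ))
      ≤ ∑ k ∈ Finset.range (P.card - 1), 12 * ρ * ((k + 2 : ℕ) : ℝ) ^ (α - 1) :=
        Finset.sum_le_sum fun k _ => hterm k
    _ = 12 * ρ * ∑ k ∈ Finset.range (P.card - 1), ((k + 2 : ℕ) : ℝ) ^ (α - 1) := by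
        rw [Finset.mul_sum]
    _ ≤ 12 * ρ * (((P.card - 1 + 1 : ℕ) : ℝ) ^ α / α) :=
        mul_le_mul_of_nonneg_left (sum_rpow_le (by linarith) hα1 _) (by positivity)
    _ = 12 * ρ * ((P.card : ℝ) ^ α / α) := by rw [← hc]
    _ ≤ 24 * ρ * (P.card : ℝ) ^ α := by
        have h6 : (P.card : ℝ) ^ α / α ≤ 2 * (P.card : ℝ) ^ α := by
          rw [div_le_iff₀ (by linarith)]
          have : 0 ≤ (P.card : ℝ) ^ α := Real.rpow_nonneg (Nat.cast_nonneg _) _
          nlinarith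
        nlinarith

end SteinerBall
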