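import Pool.Agent.Work.MP_323107_co.Eil
import Pool.Agent.Work.MP_323107_co.Defs
import Pool.Agent.Work.MP_323107_co.Pack

open MeasureTheory Set Metric Filter Topology
open scoped ENNReal

namespace SteinerBall

section basic

variable {X : Type*} [MetricSpace X] [MeasurableSpace X] [BorelSpace X]

/-- length of `St` in the open ball of radius `ρ`, as a real number -/
noncomputable def len (St : Set X) (x : X) (ρ : ℝ) : ℝ := (μH[1] (St ∩ ball x ρ)).toReal

theorem len_nonneg (St : Set X) (x : X) (ρ : ℝ) : 0 ≤ len St x ρ := ENNReal.toReal_nonneg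

variable {St A : Set X} {x : X} {r : ℝ}

theorem LocMin.ne_top (h : LocMin St A x r) {ρ : ℝ} (hρ : ρ ≤ r) : μH[1] (St ∩ ball x ρ) ≠ ∞ :=
  ne_top_of_le_ne_top h.finite (measure_mono (inter_subset_inter_right _ (ball_subset_ball hρ)))

theorem LocMin.len_mono (h : LocMin St A x r) {a b : ℝ} (hab : a ≤ b) (hb : b ≤ r) :
    len St x a ≤ len St x b :=
  ENNReal.toReal_mono (h.ne_top hb)
    (measure_mono (inter_subset_inter_right _ (ball_subset_ball hab)))

/-- increment of the length, from a lower bound on the number of points on spheres -/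
theorem LocMin.increment (h : LocMin St A x r) {c c' y : ℝ} (hcc : c ≤ c') (hc' : c' ≤ r)
    (hN : ∀ τ ∈ Ico c c', ∀ n : ℕ, (St ∩ sphere x τ).encard = n → y ≤ n) :
    len St x c + y * (c' - c) ≤ len St x c' := by
  have h1 := eilenberg_nat St (fun z => dist z x) (LipschitzWith.dist_left x) (Ico c c')
    measurableSet_Ico ⌈y⌉₊ (fun τ hτ => by
      by_cases hfin : (St ∩ sphere x τ).encard = ⊤
      · have : (St ∩ (fun z => dist z x) ⁻¹' {τ}).encard = ⊤ := hfin
        rw [this]; exact le_top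
      · obtain ⟨n, hn⟩ := ENat.ne_top_iff_exists.1 hfin
        have h2 : (St ∩ (fun z => dist z x) ⁻¹' {τ}).encard = n := hn.symm
        rw [h2]
        exact_mod_cast Nat.ceil_le.2 (hN τ hτ n hn.symm))
  rw [Real.volume_Ico] at h1
  have h3 : μH[1] (St ∩ ball x c' ∩ ball x c) + μH[1] ((St ∩ ball x c') \ ball x c) =
      μH[1] (St ∩ ball x c') := measure_inter_add_sdiff _ measurableSet_ball
  have h4 : St ∩ ball x c' ∩ ball x c = St ∩ ball x c := by
    rw [inter_assoc, inter_eq_right.2 (ball_subset_ball hcc)]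
  have h5 : (St ∩ ball x c') \ ball x c = St ∩ (fun z => dist z x) ⁻¹' (Ico c c') := by
    ext z
    simp only [Set.mem_sdiff, mem_inter_iff, mem_ball, not_lt, mem_preimage, mem_Ico]
    tauto
  rw [h4, h5] at h3
  have h6 : μH[1] (St ∩ (fun z => dist z x) ⁻¹' (Ico c c')) ≠ ∞ := by
    rw [← h5]
    exact ne_top_of_le_ne_top (h.ne_top hc') (measure_mono sdiff_subset)
  have h7 : y * (c' - c) ≤ (μH[1] (St ∩ (fun z => dist z x) ⁻¹' (Ico c c'))).toReal := by
    have h8 := ENNReal.toReal_mono h6 h1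
    rw [ENNReal.toReal_mul, ENNReal.toReal_ofReal (by linarith)] at h8
    refine le_trans ?_ h8
    refine mul_le_mul_of_nonneg_right ?_ (by linarith)
    simpa using Nat.le_ceil y
  unfold len
  rw [← h3, ENNReal.toReal_add (h.ne_top (hcc.trans hc')) h6]
  linarith

/-- one step of the growth estimate for the density ratio -/
theorem LocMin.step (h : LocMin St A x r) {κ c c' : ℝ} (hc : 0 < c) (hcc : c ≤ c')
    (hc' : c' ≤ r)
    (hN : ∀ τ ∈ Ico c c', ∀ n : ℕ, (St ∩ sphere x τ).encard = n → len St x τ / τ + κ ≤ n) :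
    (1 - (1 - c / c') ^ 2) * (len St x c / c) + κ * (1 - c / c') ≤ len St x c' / c' := by
  have hc'0 : 0 < c' := lt_of_lt_of_le hc hcc
  have h1 := h.increment (y := len St x c / c' + κ) hcc hc' (fun τ hτ n hn => by
    refine le_trans ?_ (hN τ hτ n hn)
    have hτ0 : 0 < τ := lt_of_lt_of_le hc hτ.1
    have : len St x c / c' ≤ len St x τ / τ := by
      refine div_le_div₀ (len_nonneg _ _ _) (h.len_mono hτ.1 (hτ.2.le.trans hc')) hτ0 hτ.2.le
    linarith)
  rw [le_div_iff₀ hc'0]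
  refine le_trans (le_of_eq ?_) h1
  field_simp
  ring

theorem LocMin.iterate (h : LocMin St A x r) {κ a q : ℝ} (hκ : 0 ≤ κ) (ha : 0 < a) (hq : 1 ≤ q)
    (n : ℕ) (hb : a * q ^ n ≤ r)
    (hN : ∀ τ ∈ Ico a (a * q ^ n), ∀ k : ℕ, (St ∩ sphere x τ).encard = k →
      len St x τ / τ + κ ≤ k) :
    (1 - (1 - q⁻¹) ^ 2) ^ n * (len St x a / a + n * (κ * (1 - q⁻¹))) ≤
      len St x (a * q ^ n) / (a * q ^ n) := by
  have hq0 : 0 < q := lt_of_lt_of_le one_pos hq
  have hq1 : q⁻¹ ≤ 1 := inv_le_one_of_one_le₀ hq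
  have hq2 : 0 < q⁻¹ := inv_pos.2 hq0
  set w := 1 - q⁻¹ with hw
  have hw0 : 0 ≤ w := by rw [hw]; linarith
  have hw1 : w < 1 := by rw [hw]; linarith
  have hv0 : 0 ≤ 1 - w ^ 2 := by nlinarith
  have hv1 : 1 - w ^ 2 ≤ 1 := by nlinarith
  induction n with
  | zero => simp
  | succ n ih =>
    have hle : a * q ^ n ≤ a * q ^ (n + 1) := by
      rw [pow_succ, ← mul_assoc]
      exact le_mul_of_one_le_right (by positivity) hq
    have h1 := ih (hle.trans hb) (fun τ hτ => hN τ ⟨hτ.1, lt_of_lt_of_le hτ.2 hle⟩)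
    have han : a ≤ a * q ^ n := le_mul_of_one_le_right ha.le (one_le_pow₀ hq)
    have h2 := h.step (lt_of_lt_of_le ha han) hle hb
      (fun τ hτ => hN τ ⟨han.trans hτ.1, hτ.2⟩)
    have h3 : a * q ^ n / (a * q ^ (n + 1)) = q⁻¹ := by
      rw [pow_succ]; field_simp
    rw [h3, ← hw] at h2
    refine le_trans ?_ h2
    have h4 : (1 - w ^ 2) * ((1 - w ^ 2) ^ n * (len St x a / a + n * (κ * w))) ≤
        (1 - w ^ 2) * (len St x (a * q ^ n) / (a * q ^ n)) := mul_le_mul_of_nonneg_left h1 hv0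
    have h5 : (1 - w ^ 2) ^ (n + 1) * (κ * w) ≤ κ * w :=
      mul_le_of_le_one_left (mul_nonneg hκ hw0) (pow_le_one₀ hv0 hv1)
    have h6 : (1 - w ^ 2) ^ (n + 1) * (len St x a / a + ((n + 1 : ℕ) : ℝ) * (κ * w)) =
        (1 - w ^ 2) * ((1 - w ^ 2) ^ n * (len St x a / a + n * (κ * w))) +
          (1 - w ^ 2) ^ (n + 1) * (κ * w) := by
      push_cast; ring
    rw [h6]
    linarith

/-- growth of the density ratio -/
theorem LocMin.growth (h : LocMin St A x r) {κ a b : ℝ} (hκ : 0 ≤ κ) (ha : 0 < a) (hab : a ≤ b)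
    (hb : b ≤ r)
    (hN : ∀ τ ∈ Ico a b, ∀ k : ℕ, (St ∩ sphere x τ).encard = k → len St x τ / τ + κ ≤ k) :
    len St x a / a + κ * Real.log (b / a) ≤ len St x b / b := by
  have hb0 : 0 < b := lt_of_lt_of_le ha hab
  set L := Real.log (b / a) with hL
  have hL0 : 0 ≤ L := Real.log_nonneg ((one_le_div ha).2 hab)
  set θ := len St x a / a with hθ
  have hθ0 : 0 ≤ θ := div_nonneg (len_nonneg _ _ _) ha.le
  have key : ∀ n : ℕ, 1 ≤ n → L ^ 2 ≤ n →
      (1 - L ^ 2 / n) * (θ + κ * (L / (1 + L / n))) ≤ len St x b / b := by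
    intro n hn hLn
    have hn0 : (0 : ℝ) < n := by exact_mod_cast hn
    set q := Real.exp (L / n) with hq
    have hq1 : 1 ≤ q := Real.one_le_exp (by positivity)
    have hqn : a * q ^ n = b := by
      rw [hq, ← Real.exp_nat_mul, mul_div_cancel₀ _ hn0.ne', hL, Real.exp_log (by positivity)]
      field_simp
    have h1 := h.iterate hκ ha hq1 n (by rw [hqn]; exact hb) (by rw [hqn]; exact hN)
    rw [hqn] at h1
    set w := 1 - q⁻¹ with hw
    have hqinv : q⁻¹ = Real.exp (-(L / n)) := by rw [hq, Real.exp_neg]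
    have hw0 : 0 ≤ w := by rw [hw, sub_nonneg]; exact inv_le_one_of_one_le₀ hq1
    have hwL : w ≤ L / n := by
      have := Real.add_one_le_exp (-(L / n))
      rw [hw, hqinv]; linarith
    have hwlow : L / n / (1 + L / n) ≤ w := by
      have h2 : 1 + L / n ≤ q := by
        have := Real.add_one_le_exp (L / n); rw [hq]; linarith
      have h3 : q⁻¹ ≤ (1 + L / n)⁻¹ := inv_anti₀ (by positivity) h2
      have h4 : L / n / (1 + L / n) = 1 - (1 + L / n)⁻¹ := by
        have : (1 + L / n) ≠ 0 := by positivity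
        field_simp
        ring
      rw [h4, hw]; linarith
    have hnw : L / (1 + L / n) ≤ n * w := by
      calc L / (1 + L / n) = n * (L / n / (1 + L / n)) := by field_simp
        _ ≤ n * w := mul_le_mul_of_nonneg_left hwlow hn0.le
    have hbern : 1 - L ^ 2 / n ≤ (1 - w ^ 2) ^ n := by
      have hw1 : w ≤ 1 := by rw [hw]; have := inv_pos.2 (lt_of_lt_of_le one_pos hq1); linarith
      have h2 := one_add_mul_le_pow (a := -(w ^ 2)) (by nlinarith) n
      have h3 : (n : ℝ) * w ^ 2 ≤ L ^ 2 / n := by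
        calc (n : ℝ) * w ^ 2 ≤ n * (L / n) ^ 2 := by gcongr
          _ = L ^ 2 / n := by field_simp
      have h4 : (1 + -(w ^ 2)) ^ n = (1 - w ^ 2) ^ n := by ring_nf
      rw [h4] at h2
      linarith
    have h5 : 0 ≤ 1 - L ^ 2 / n := by
      rw [sub_nonneg, div_le_one hn0]; exact hLn
    refine le_trans ?_ h1
    have h6 : θ + κ * (L / (1 + L / n)) ≤ θ + n * (κ * w) := by
      have := mul_le_mul_of_nonneg_left hnw hκ
      linarith
    exact mul_le_mul hbern h6 (by positivity) (h5.trans hbern)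
  have hlim : Tendsto (fun n : ℕ => (1 - L ^ 2 / (n : ℝ)) * (θ + κ * (L / (1 + L / (n : ℝ)))))
      atTop (𝓝 ((1 - 0) * (θ + κ * (L / (1 + 0))))) := by
    have t1 : Tendsto (fun n : ℕ => L ^ 2 / (n : ℝ)) atTop (𝓝 0) :=
      tendsto_const_div_atTop_nhds_zero_nat _
    have t2 : Tendsto (fun n : ℕ => L / (n : ℝ)) atTop (𝓝 0) :=
      tendsto_const_div_atTop_nhds_zero_nat _
    refine (tendsto_const_nhds.sub t1).mul (tendsto_const_nhds.add (tendsto_const_nhds.mul ?_))
    exact tendsto_const_nhds.div (tendsto_const_nhds.add t2) (by norm_num)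
  have h7 : (1 - 0) * (θ + κ * (L / (1 + 0))) = θ + κ * L := by simp
  rw [h7] at hlim
  refine le_of_tendsto hlim ?_
  obtain ⟨n₀, hn₀⟩ := exists_nat_ge (L ^ 2)
  filter_upwards [eventually_ge_atTop (max n₀ 1)] with n hn
  exact key n ((le_max_right _ _).trans hn)
    (hn₀.trans (by exact_mod_cast (le_max_left _ _).trans hn))

end basic

end SteinerBall
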