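import Mathlib

open MeasureTheory Set Metric
open scoped ENNReal

namespace SteinerBall

set_option linter.unusedSectionVars false

variable {E : Type*} [NormedAddCommGroup E] [InnerProductSpace ℝ E] [MeasurableSpace E]
  [BorelSpace E]

/-- `Net P x ρ L a`: there is a compact connected subset of the closed ball of radius `ρ` about
`x` which contains `P` and `a` and has length at most `L`. -/
def Net (P : Set E) (x : E) (ρ L : ℝ) (a : E) : Prop :=
  ∃ K : Set E, IsCompact K ∧ IsConnected K ∧ K ⊆ closedBall x ρ ∧ P ⊆ K ∧ a ∈ K ∧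
    μH[1] K ≤ ENNReal.ofReal L

theorem Net.mono {P P' : Set E} {x : E} {ρ L L' : ℝ} {a a' : E} (h : Net P x ρ L a)
    (hP : P' ⊆ insert a P) (ha' : a' ∈ insert a P) (hL : L ≤ L') : Net P' x ρ L' a' := by
  obtain ⟨K, h1, h2, h3, h4, h5, h6⟩ := h
  have h7 : insert a P ⊆ K := insert_subset h5 h4
  exact ⟨K, h1, h2, h3, hP.trans h7, h7 ha', h6.trans (ENNReal.ofReal_le_ofReal hL)⟩

/-- add one segment -/
theorem Net.extend {P : Set E} {x : E} {ρ L : ℝ} {a b : E} (h : Net P x ρ L a) (hL : 0 ≤ L)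
    (hb : b ∈ closedBall x ρ) : Net (insert a P) x ρ (L + dist a b) b := by
  obtain ⟨K, h1, h2, h3, h4, h5, h6⟩ := h
  refine ⟨K ∪ segment ℝ a b, h1.union ?_, ?_, ?_, ?_, Or.inr (right_mem_segment ℝ a b), ?_⟩
  · have h7 : convexHull ℝ ({a, b} : Set E) = segment ℝ a b := convexHull_pair ..
    rw [← h7]
    exact (Set.toFinite {a, b}).isCompact_convexHull ℝ
  · exact h2.union ⟨a, h5, left_mem_segment ℝ a b⟩
      ⟨⟨a, left_mem_segment ℝ a b⟩, (convex_segment a b).isPreconnected⟩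
  · exact union_subset h3 ((convex_closedBall x ρ).segment_subset (h3 h5) hb)
  · exact insert_subset (Or.inl h5) (h4.trans subset_union_left)
  · refine (measure_union_le _ _).trans ?_
    rw [MeasureTheory.hausdorffMeasure_segment, ENNReal.ofReal_add hL dist_nonneg, edist_dist]
    exact add_le_add h6 le_rfl

theorem net_singleton (x a : E) {ρ : ℝ} (ha : a ∈ closedBall x ρ) : Net {a} x ρ 0 a := by
  refine ⟨{a}, isCompact_singleton, isConnected_singleton, singleton_subset_iff.2 ha,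
    Subset.rfl, rfl, ?_⟩
  have : NullSingletonClass (μH[1] : Measure E) :=
    MeasureTheory.Measure.nullSingletonClass_hausdorff E one_pos
  rw [measure_singleton]; exact bot_le

/-- the cone -/
theorem net_cone (x : E) {ρ : ℝ} (hρ : 0 ≤ ρ) (P : Finset E) (hP : ∀ v ∈ P, dist v x ≤ ρ) :
    Net (P : Set E) x ρ (ρ * P.card) x := by
  classical
  induction P using Finset.induction_on with
  | empty => exact (net_singleton x x (mem_closedBall_self hρ)).mono (by simp) (by simp) (by simp)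
  | insert v P hv ih =>
    have h1 := ih fun w hw => hP w (Finset.mem_insert_of_mem hw)
    have hv1 : dist v x ≤ ρ := hP v (Finset.mem_insert_self _ _)
    have h2 := h1.extend (by positivity) (mem_closedBall.2 hv1)
    refine h2.mono ?_ ?_ ?_
    · rw [Finset.coe_insert]
      exact insert_subset (mem_insert _ _) ((subset_insert _ _).trans (subset_insert _ _))
    · exact Or.inr (mem_insert _ _)
    · rw [Finset.card_insert_of_notMem hv, dist_comm]
      push_cast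
      nlinarith

/-- two directions at an angle clearly below 120 degrees -/
theorem exists_pair (x : E) {ρ : ℝ} (hρ : 0 < ρ) (P : Finset E) (hP : ∀ v ∈ P, dist v x = ρ)
    (h4 : 4 ≤ P.card) :
    ∃ a ∈ P, ∃ b ∈ P, a ≠ b ∧ -(ρ ^ 2 / 3) ≤ inner ℝ (a - x) (b - x) := by
  classical
  by_contra hcon
  push Not at hcon
  have hsum : 0 ≤ ∑ a ∈ P, ∑ b ∈ P, inner ℝ (a - x) (b - x) := by
    have : ∑ a ∈ P, ∑ b ∈ P, inner ℝ (a - x) (b - x) =
        inner ℝ (∑ a ∈ P, (a - x)) (∑ b ∈ P, (b - x)) := by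
      rw [sum_inner]
      refine Finset.sum_congr rfl fun a _ => ?_
      rw [inner_sum]
    rw [this]
    exact real_inner_self_nonneg
  have hle : ∀ a ∈ P, ∑ b ∈ P, inner ℝ (a - x) (b - x) ≤
      ρ ^ 2 + ((P.card : ℝ) - 1) * (-(ρ ^ 2 / 3)) := by
    intro a ha
    rw [← Finset.add_sum_erase P _ ha]
    have h1 : inner ℝ (a - x) (a - x) = ρ ^ 2 := by
      rw [real_inner_self_eq_norm_sq, ← dist_eq_norm, hP a ha]
    have h2 : ∑ b ∈ P.erase a, inner ℝ (a - x) (b - x) ≤ ∑ b ∈ P.erase a, (-(ρ ^ 2 / 3)) :=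
      Finset.sum_le_sum fun b hb =>
        (hcon a ha b (Finset.mem_of_mem_erase hb) (Finset.ne_of_mem_erase hb).symm).le
    rw [Finset.sum_const, Finset.card_erase_of_mem ha, nsmul_eq_mul] at h2
    have h3 : ((P.card - 1 : ℕ) : ℝ) = (P.card : ℝ) - 1 := by
      rw [Nat.cast_sub (by omega)]; simp
    rw [h3] at h2
    rw [h1]; linarith
  have hne : P.Nonempty := Finset.card_pos.1 (by omega)
  obtain ⟨a₀, ha₀⟩ := hne
  -- strictness at one vertex
  have hcard : 1 < P.card := by omega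
  have hstrict : ∑ a ∈ P, ∑ b ∈ P, inner ℝ (a - x) (b - x) <
      ∑ a ∈ P, (ρ ^ 2 + ((P.card : ℝ) - 1) * (-(ρ ^ 2 / 3))) := by
    refine Finset.sum_lt_sum hle ⟨a₀, ha₀, ?_⟩
    rw [← Finset.add_sum_erase P _ ha₀]
    have h1 : inner ℝ (a₀ - x) (a₀ - x) = ρ ^ 2 := by
      rw [real_inner_self_eq_norm_sq, ← dist_eq_norm, hP a₀ ha₀]
    obtain ⟨b₀, hb₀, hb₀'⟩ := Finset.exists_mem_ne hcard a₀
    have h2 : ∑ b ∈ P.erase a₀, inner ℝ (a₀ - x) (b - x) <
        ∑ b ∈ P.erase a₀, (-(ρ ^ 2 / 3)) :=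
      Finset.sum_lt_sum_of_nonempty ⟨b₀, Finset.mem_erase.2 ⟨hb₀', hb₀⟩⟩ fun b hb =>
        hcon a₀ ha₀ b (Finset.mem_of_mem_erase hb) (Finset.ne_of_mem_erase hb).symm
    rw [Finset.sum_const, Finset.card_erase_of_mem ha₀, nsmul_eq_mul] at h2
    have h3 : ((P.card - 1 : ℕ) : ℝ) = (P.card : ℝ) - 1 := by
      rw [Nat.cast_sub (by omega)]; simp
    rw [h3] at h2
    rw [h1]; linarith
  rw [Finset.sum_const, nsmul_eq_mul] at hstrict
  have h4' : (4 : ℝ) ≤ P.card := by exact_mod_cast h4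
  nlinarith [mul_pos hρ hρ, mul_nonneg (show (0 : ℝ) ≤ P.card by positivity)
    (mul_nonneg (sub_nonneg.2 h4') (mul_pos hρ hρ).le)]

/-- merging two legs gains at least `ρ / 125` -/
theorem merge_gain {u v : E} {ρ : ℝ} (hρ : 0 < ρ) (hu : ‖u‖ = ρ) (hv : ‖v‖ = ρ)
    (h : -(ρ ^ 2 / 3) ≤ inner ℝ u v) :
    ‖(1 / 10 : ℝ) • (u + v)‖ + ‖u - (1 / 10 : ℝ) • (u + v)‖ + ‖v - (1 / 10 : ℝ) • (u + v)‖ ≤
      (2 - 1 / 125) * ρ := by
  set c := inner ℝ u v with hc
  have hc' : inner ℝ v u = c := by rw [real_inner_comm]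
  set σ := ‖u + v‖ with hσ
  have hσ0 : 0 ≤ σ := norm_nonneg _
  have hσ2 : σ ^ 2 = 2 * ρ ^ 2 + 2 * c := by
    rw [hσ, norm_add_sq_real, hu, hv, ← hc]; ring
  have hσle : σ ≤ 2 * ρ := by
    calc σ ≤ ‖u‖ + ‖v‖ := norm_add_le _ _
      _ = 2 * ρ := by rw [hu, hv]; ring
  have huw : inner ℝ u (u + v) = ρ ^ 2 + c := by
    rw [inner_add_right, real_inner_self_eq_norm_sq, hu]
  have hvw : inner ℝ v (u + v) = ρ ^ 2 + c := by
    rw [inner_add_right, real_inner_self_eq_norm_sq, hv, hc']; ring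
  have h1 : ‖(1 / 10 : ℝ) • (u + v)‖ = σ / 10 := by
    rw [norm_smul, ← hσ]; norm_num; ring
  have h2 : ‖u - (1 / 10 : ℝ) • (u + v)‖ ^ 2 = ρ ^ 2 - 9 / 100 * σ ^ 2 := by
    rw [norm_sub_sq_real, inner_smul_right, huw, hu, h1]
    nlinarith [hσ2]
  have h3 : ‖v - (1 / 10 : ℝ) • (u + v)‖ ^ 2 = ρ ^ 2 - 9 / 100 * σ ^ 2 := by
    rw [norm_sub_sq_real, inner_smul_right, hvw, hv, h1]
    nlinarith [hσ2]
  have hlow : 4 / 3 * ρ ^ 2 ≤ σ ^ 2 := by rw [hσ2]; nlinarith
  have hσlow : 1.154 * ρ ≤ σ := by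
    by_contra hlt
    push Not at hlt
    have : σ ^ 2 < (1.154 * ρ) ^ 2 := by
      apply pow_lt_pow_left₀ hlt hσ0 (by norm_num)
    nlinarith [mul_pos hρ hρ]
  have hkey : ρ ^ 2 - 9 / 100 * σ ^ 2 ≤ (0.996 * ρ - 0.05 * σ) ^ 2 := by
    nlinarith [mul_nonneg (sub_nonneg.2 hσlow) (sub_nonneg.2 hσlow), mul_pos hρ hρ,
      mul_nonneg (sub_nonneg.2 hσlow) hρ.le]
  have hpos : 0 ≤ 0.996 * ρ - 0.05 * σ := by nlinarith
  have h4 : ‖u - (1 / 10 : ℝ) • (u + v)‖ ≤ 0.996 * ρ - 0.05 * σ :=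
    abs_le_of_sq_le_sq' (by rw [h2]; exact hkey) hpos |>.2
  have h5 : ‖v - (1 / 10 : ℝ) • (u + v)‖ ≤ 0.996 * ρ - 0.05 * σ :=
    abs_le_of_sq_le_sq' (by rw [h3]; exact hkey) hpos |>.2
  rw [h1]
  linarith

theorem net_four (x : E) {ρ : ℝ} (hρ : 0 < ρ) (P : Finset E) (hP : ∀ v ∈ P, dist v x = ρ)
    (h4 : 4 ≤ P.card) : Net (P : Set E) x ρ (ρ * (P.card - 1 / 125)) x := by
  classical
  obtain ⟨a, ha, b, hb, hab, hin⟩ := exists_pair x hρ P hP h4
  have hu : ‖a - x‖ = ρ := by rw [← dist_eq_norm]; exact hP a ha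
  have hv : ‖b - x‖ = ρ := by rw [← dist_eq_norm]; exact hP b hb
  have hg := merge_gain hρ hu hv hin
  set w : E := (1 / 10 : ℝ) • ((a - x) + (b - x)) with hw
  set s : E := x + w with hs
  have hcone := net_cone x hρ.le ((P.erase a).erase b) fun v hv =>
    (hP v (Finset.mem_of_mem_erase (Finset.mem_of_mem_erase hv))).le
  have hcard : (((P.erase a).erase b).card : ℝ) = P.card - 2 := by
    rw [Finset.card_erase_of_mem (Finset.mem_erase.2 ⟨hab.symm, hb⟩),
      Finset.card_erase_of_mem ha, Nat.cast_sub (by omega), Nat.cast_sub (by omega)]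
    push_cast; ring
  rw [hcard] at hcone
  have h4' : (4 : ℝ) ≤ P.card := by exact_mod_cast h4
  have hxs : dist x s = ‖w‖ := by rw [hs, dist_eq_norm]; simp
  have hsa : dist s a = ‖(a - x) - w‖ := by
    rw [hs, dist_comm, dist_eq_norm]; congr 1; abel
  have hsb : dist s b = ‖(b - x) - w‖ := by
    rw [hs, dist_comm, dist_eq_norm]; congr 1; abel
  have hw1 : ‖w‖ ≤ ρ := by
    have : ‖w‖ ≤ 1 / 10 * (ρ + ρ) := by
      rw [hw, norm_smul]
      have := norm_add_le (a - x) (b - x)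
      rw [hu, hv] at this
      have h10 : ‖(1 / 10 : ℝ)‖ = 1 / 10 := by norm_num
      rw [h10]
      linarith
    linarith
  have hsball : s ∈ closedBall x ρ := by rw [mem_closedBall, dist_comm, hxs]; exact hw1
  have haball : a ∈ closedBall x ρ := mem_closedBall.2 (hP a ha).le
  have hbball : b ∈ closedBall x ρ := mem_closedBall.2 (hP b hb).le
  have hL0 : 0 ≤ ρ * ((P.card : ℝ) - 2) := mul_nonneg hρ.le (by linarith)
  have n1 := hcone.extend hL0 hsball
  have n2 := n1.extend (add_nonneg hL0 dist_nonneg) haball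
  have n3 := (n2.mono (P' := insert a (insert s (insert x ((((P.erase a).erase b) : Finset E) :
    Set E)))) (a' := s) Subset.rfl (by simp) le_rfl).extend
      (add_nonneg (add_nonneg hL0 dist_nonneg) dist_nonneg) hbball
  refine n3.mono ?_ ?_ ?_
  · intro v hv
    by_cases h1 : v = b
    · subst h1; exact Or.inl rfl
    · by_cases h2 : v = a
      · subst h2; simp
      · have : v ∈ (P.erase a).erase b := by
          rw [Finset.mem_erase, Finset.mem_erase]; exact ⟨h1, h2, hv⟩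
        simp only [mem_insert_iff, Finset.mem_coe]
        tauto
  · simp
  · rw [hxs, hsa, hsb]
    nlinarith [hg]

end SteinerBall
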