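import Pool.Agent.Work.MP_323107_co.Defs
import Pool.Agent.Work.MP_323107_co.Chain

open MeasureTheory Set Metric Filter Topology
open scoped ENNReal NNReal

namespace SteinerBall

set_option linter.unusedSectionVars false

/-- a connected set of finite length is bounded -/
theorem isBounded_of_length {X : Type*} [MetricSpace X] [MeasurableSpace X] [BorelSpace X]
    {K : Set X} (hK : IsPreconnected K) (hfin : μH[1] K ≠ ∞) : Bornology.IsBounded K := by
  rcases K.eq_empty_or_nonempty with rfl | ⟨a, ha⟩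
  · exact Bornology.isBounded_empty
  set R : ℝ := (μH[1] K).toReal + 1 with hR
  refine (isBounded_iff_subset_closedBall a).2 ⟨R, fun y hy => ?_⟩
  rw [mem_closedBall]
  by_contra hlt
  push Not at hlt
  set f : X → ℝ := fun z => dist z a with hf
  have hf1 : LipschitzWith 1 f := LipschitzWith.dist_left a
  have himg : Icc 0 R ⊆ f '' K := by
    have h1 : IsPreconnected (f '' K) := hK.image f hf1.continuous.continuousOn
    have h2 : Icc (f a) (f y) ⊆ f '' K := h1.Icc_subset ⟨a, ha, rfl⟩ ⟨y, hy, rfl⟩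
    refine (Icc_subset_Icc ?_ hlt.le).trans h2
    show dist a a ≤ 0
    rw [dist_self]
  have h3 : μH[1] (f '' K) ≤ μH[1] K := by
    have := hf1.hausdorffMeasure_image_le (d := 1) zero_le_one K
    simpa using this
  have h4 : μH[1] (Icc 0 R) ≤ μH[1] K := (measure_mono himg).trans h3
  rw [MeasureTheory.hausdorffMeasure_real, Real.volume_Icc, sub_zero] at h4
  have h5 : R ≤ (μH[1] K).toReal := (ENNReal.ofReal_le_iff_le_toReal hfin).1 h4
  linarith

variable {E : Type*} [NormedAddCommGroup E] [InnerProductSpace ℝ E] [MeasurableSpace E]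
  [BorelSpace E]

open scoped InnerProductSpace

/-- the tripod of size `ρ` with directions `u` -/
def tri (u : Fin 3 → E) (ρ : ℝ) : Set E := ⋃ i, segment ℝ 0 (ρ • u i)

/-- its end points -/
def ends (u : Fin 3 → E) (ρ : ℝ) : Set E := range fun i => ρ • u i

theorem ends_subset (u : Fin 3 → E) (ρ : ℝ) : ends u ρ ⊆ tri u ρ := by
  rintro _ ⟨i, rfl⟩
  exact mem_iUnion.2 ⟨i, right_mem_segment ℝ _ _⟩

theorem isCompact_segment (x y : E) : IsCompact (segment ℝ x y) := by
  rw [segment_eq_image_lineMap]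
  exact isCompact_Icc.image (AffineMap.lineMap_continuous)

theorem tri_compact (u : Fin 3 → E) (ρ : ℝ) : IsCompact (tri u ρ) :=
  isCompact_iUnion fun _ => isCompact_segment _ _

theorem tri_connected (u : Fin 3 → E) (ρ : ℝ) : IsConnected (tri u ρ) := by
  refine ⟨⟨0, mem_iUnion.2 ⟨0, left_mem_segment ℝ _ _⟩⟩, ?_⟩
  exact isPreconnected_iUnion ⟨0, mem_iInter.2 fun i => left_mem_segment ℝ _ _⟩
    fun i => (convex_segment _ _).isPreconnected

theorem tri_length_le (u : Fin 3 → E) (hu : ∀ i, ‖u i‖ = 1) {ρ : ℝ} (hρ : 0 ≤ ρ) :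
    μH[1] (tri u ρ) ≤ ENNReal.ofReal (3 * ρ) := by
  refine (measure_iUnion_le _).trans ?_
  rw [tsum_fintype]
  have h1 : ∀ i, μH[1] (segment ℝ 0 (ρ • u i)) = ENNReal.ofReal ρ := by
    intro i
    rw [MeasureTheory.hausdorffMeasure_segment, edist_dist, dist_zero_left, norm_smul, hu,
      mul_one, Real.norm_of_nonneg hρ]
  simp_rw [h1]
  rw [Finset.sum_const, Finset.card_univ, Fintype.card_fin, nsmul_eq_mul,
    ENNReal.ofReal_mul (by norm_num)]
  norm_num

/-- the Fermat point inequality -/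
theorem fermat (u : Fin 3 → E) (hu : ∀ i, ‖u i‖ = 1) (hsum : ∑ i, u i = 0) (ρ : ℝ) (p : E) :
    3 * ρ ≤ dist (ρ • u 0) p + dist (ρ • u 1) p + dist (ρ • u 2) p := by
  have h1 : ∀ i, ρ - ⟪u i, p⟫_ℝ ≤ dist (ρ • u i) p := by
    intro i
    have h2 : ⟪u i, ρ • u i - p⟫_ℝ ≤ ‖u i‖ * ‖ρ • u i - p‖ := real_inner_le_norm _ _
    rw [inner_sub_right, real_inner_smul_right, real_inner_self_eq_norm_sq, hu, one_mul] at h2
    rw [dist_eq_norm]
    linarith
  have h3 : ⟪u 0, p⟫_ℝ + ⟪u 1, p⟫_ℝ + ⟪u 2, p⟫_ℝ = 0 := by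
    rw [← inner_add_left, ← inner_add_left]
    have : u 0 + u 1 + u 2 = 0 := by rw [← hsum, Fin.sum_univ_three]
    rw [this, inner_zero_left]
  have := h1 0
  have := h1 1
  have := h1 2
  linarith

variable [FiniteDimensional ℝ E]

/-- every set connecting the three end points has length at least `3 ρ` -/
theorem tri_le (u : Fin 3 → E) (hu : ∀ i, ‖u i‖ = 1) (hsum : ∑ i, u i = 0) (ρ : ℝ)
    {S : Set E} (hS : IsClosed S) (hconn : IsConnected (S ∪ ends u ρ)) :
    ENNReal.ofReal (3 * ρ) ≤ μH[1] S := by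
  have hfinA : (ends u ρ).Finite := finite_range _
  haveI : NullSingletonClass (μH[1] : Measure E) :=
    MeasureTheory.Measure.nullSingletonClass_hausdorff E one_pos
  have hA0 : μH[1] (ends u ρ) = 0 := hfinA.measure_zero _
  have hle : μH[1] (S ∪ ends u ρ) ≤ μH[1] S := by
    refine (measure_union_le _ _).trans ?_
    rw [hA0, add_zero]
  by_cases hfin : μH[1] (S ∪ ends u ρ) = ∞
  · rw [hfin, top_le_iff] at hle
    rw [hle]; exact le_top
  have hb := isBounded_of_length hconn.isPreconnected hfin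
  have hK : IsCompact (S ∪ ends u ρ) :=
    isCompact_of_isClosed_isBounded (hS.union hfinA.isClosed) hb
  exact (three_le hK hconn.isPreconnected (Or.inr ⟨0, rfl⟩) (Or.inr ⟨1, rfl⟩) (Or.inr ⟨2, rfl⟩)
    hfin (fermat u hu hsum ρ)).trans hle

theorem tri_length (u : Fin 3 → E) (hu : ∀ i, ‖u i‖ = 1) (hsum : ∑ i, u i = 0) {ρ : ℝ}
    (hρ : 0 ≤ ρ) : μH[1] (tri u ρ) = ENNReal.ofReal (3 * ρ) :=
  le_antisymm (tri_length_le u hu hρ) (tri_le u hu hsum ρ (tri_compact u ρ).isClosed (by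
    rw [union_eq_self_of_subset_right (ends_subset u ρ)]; exact tri_connected u ρ))

theorem inner_ne (u : Fin 3 → E) (hu : ∀ i, ‖u i‖ = 1) (hsum : ∑ i, u i = 0) {i j : Fin 3}
    (hij : i ≠ j) : ⟪u i, u j⟫_ℝ = -1 / 2 := by
  have h0 : u 0 + u 1 + u 2 = 0 := by rw [← hsum, Fin.sum_univ_three]
  have key : ∀ a b c : E, ‖a‖ = 1 → ‖b‖ = 1 → ‖c‖ = 1 → a + b + c = 0 →
      ⟪a, b⟫_ℝ = -1 / 2 := by
    intro a b c ha hb hc habc
    have h1 : c = -(a + b) := by rw [eq_neg_iff_add_eq_zero, ← habc]; abel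
    have h2 : ‖a + b‖ ^ 2 = 1 := by rw [← norm_neg, ← h1, hc, one_pow]
    rw [norm_add_sq_real, ha, hb] at h2
    linarith
  have h01 := key (u 0) (u 1) (u 2) (hu 0) (hu 1) (hu 2) h0
  have h12 := key (u 1) (u 2) (u 0) (hu 1) (hu 2) (hu 0) (by rw [← h0]; abel)
  have h20 := key (u 2) (u 0) (u 1) (hu 2) (hu 0) (hu 1) (by rw [← h0]; abel)
  fin_cases i <;> fin_cases j <;> first | exact absurd rfl hij | skip
  · exact h01
  · rw [real_inner_comm]; exact h20
  · rw [real_inner_comm]; exact h01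
  · exact h12
  · exact h20
  · rw [real_inner_comm]; exact h12

/-- the part of the tripod in a smaller ball -/
theorem tri_inter_ball_le (u : Fin 3 → E) (hu : ∀ i, ‖u i‖ = 1) {r a : ℝ} (ha : 0 ≤ a)
    (har : a ≤ r) : tri u r ∩ ball 0 a ⊆ tri u a := by
  rintro y ⟨hy, hya⟩
  obtain ⟨i, hi⟩ := mem_iUnion.1 hy
  rw [segment_eq_image] at hi
  obtain ⟨s, hs, rfl⟩ := hi
  rw [mem_ball_zero_iff] at hya
  simp only [smul_zero, zero_add, smul_smul] at hya ⊢
  rw [norm_smul, hu, mul_one, Real.norm_of_nonneg (mul_nonneg hs.1 (ha.trans har))] at hya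
  refine mem_iUnion.2 ⟨i, ?_⟩
  rw [segment_eq_image]
  have ha0 : 0 < a := lt_of_le_of_lt (mul_nonneg hs.1 (ha.trans har)) hya
  have hr0 : 0 ≤ r := ha.trans har
  refine ⟨s * r / a, ⟨by have := hs.1; positivity, (div_le_one ha0).2 hya.le⟩, ?_⟩
  simp only [smul_zero, zero_add, smul_smul]
  rw [div_mul_cancel₀ _ ha0.ne']

theorem tri_subset (u : Fin 3 → E) (hu : ∀ i, ‖u i‖ = 1) {r a b : ℝ} (ha : 0 ≤ a)
    (hab : a < b) (hbr : b ≤ r) : tri u a ⊆ tri u r ∩ ball 0 b := by
  intro y hy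
  obtain ⟨i, hi⟩ := mem_iUnion.1 hy
  rw [segment_eq_image] at hi
  obtain ⟨s, hs, rfl⟩ := hi
  have hr : 0 < r := lt_of_le_of_lt ha (lt_of_lt_of_le hab hbr)
  have h1 : s * a ≤ a := mul_le_of_le_one_left ha hs.2
  refine ⟨mem_iUnion.2 ⟨i, ?_⟩, ?_⟩
  · rw [segment_eq_image]
    refine ⟨s * a / r, ⟨by have := hs.1; positivity, (div_le_one hr).2 (by linarith)⟩, ?_⟩
    simp only [smul_zero, zero_add, smul_smul]
    rw [div_mul_cancel₀ _ hr.ne']
  · rw [mem_ball_zero_iff]
    simp only [smul_zero, zero_add, smul_smul]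
    rw [norm_smul, hu, mul_one, Real.norm_of_nonneg (mul_nonneg hs.1 ha)]
    linarith

theorem tri_ball (u : Fin 3 → E) (hu : ∀ i, ‖u i‖ = 1) (hsum : ∑ i, u i = 0) {r b : ℝ}
    (hb : 0 < b) (hbr : b ≤ r) : μH[1] (tri u r ∩ ball 0 b) = ENNReal.ofReal (3 * b) := by
  refine le_antisymm ((measure_mono (tri_inter_ball_le u hu hb.le hbr)).trans
    (tri_length_le u hu hb.le)) ?_
  have hfin : μH[1] (tri u r ∩ ball 0 b) ≠ ∞ :=
    ne_top_of_le_ne_top ENNReal.ofReal_ne_top
      ((measure_mono (tri_inter_ball_le u hu hb.le hbr)).trans (tri_length_le u hu hb.le))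
  refine ENNReal.ofReal_le_of_le_toReal ?_
  refine le_of_forall_pos_le_add fun ε hε => ?_
  set a := max 0 (b - ε / 3) with ha
  have ha0 : 0 ≤ a := le_max_left _ _
  have hab : a < b := max_lt hb (by linarith)
  have h1 := (tri_le u hu hsum a (tri_compact u a).isClosed (by
    rw [union_eq_self_of_subset_right (ends_subset u a)]; exact tri_connected u a)).trans
    (measure_mono (tri_subset u hu ha0 hab hbr))
  have h2 := (ENNReal.ofReal_le_iff_le_toReal hfin).1 h1
  have h3 : b - ε / 3 ≤ a := le_max_right _ _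
  linarith

theorem tri_degree (u : Fin 3 → E) (hu : ∀ i, ‖u i‖ = 1) (hsum : ∑ i, u i = 0) {r : ℝ}
    (hr : 0 < r) (i : Fin 3) : HasDegreeOne (tri u r) (r • u i) := by
  refine ⟨ends_subset u r ⟨i, rfl⟩, r, hr, fun ε hε => ?_⟩
  have hset : (tri u r ∩ ball (r • u i) ε) \ {r • u i} =
      (fun s : ℝ => s • u i) '' Ioo (r - ε) r := by
    ext y
    constructor
    · rintro ⟨⟨hy, hyb⟩, hne⟩
      obtain ⟨j, hj⟩ := mem_iUnion.1 hy
      rw [segment_eq_image] at hj
      obtain ⟨s, hs, rfl⟩ := hj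
      simp only [smul_zero, zero_add, smul_smul] at hyb hne ⊢
      rw [mem_ball, dist_eq_norm] at hyb
      by_cases hij : i = j
      · subst hij
        refine ⟨s * r, ⟨?_, ?_⟩, rfl⟩
        · rw [← sub_smul, norm_smul, hu, mul_one, Real.norm_eq_abs] at hyb
          have := (abs_lt.1 hyb).1
          linarith
        · rcases (mul_le_of_le_one_left hr.le hs.2 : s * r ≤ r).lt_or_eq with h | h
          · exact h
          · exfalso; apply hne; rw [h]; rfl
      · exfalso
        have h1 : ‖(s * r) • u j - r • u i‖ ^ 2 = (s * r) ^ 2 + r ^ 2 + s * r * r := by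
          rw [norm_sub_sq_real, norm_smul, norm_smul, hu, hu, real_inner_smul_left,
            real_inner_smul_right, inner_ne u hu hsum (Ne.symm hij), mul_one, mul_one,
            Real.norm_eq_abs, Real.norm_eq_abs, sq_abs, sq_abs]
          ring
        have h2 : ‖(s * r) • u j - r • u i‖ ^ 2 < ε ^ 2 :=
          pow_lt_pow_left₀ hyb (norm_nonneg _) (by norm_num)
        have h3 : ε ^ 2 < r ^ 2 := pow_lt_pow_left₀ hε.2 hε.1.le (by norm_num)
        have h4 : 0 ≤ s * r * r := by have := hs.1; positivity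
        have h5 : 0 ≤ (s * r) ^ 2 := sq_nonneg _
        linarith
    · rintro ⟨s, ⟨hs1, hs2⟩, rfl⟩
      have hs0 : 0 < s := by have := hε.2; linarith
      refine ⟨⟨mem_iUnion.2 ⟨i, ?_⟩, ?_⟩, ?_⟩
      · rw [segment_eq_image]
        refine ⟨s / r, ⟨by positivity, (div_le_one hr).2 hs2.le⟩, ?_⟩
        simp only [smul_zero, zero_add, smul_smul]
        rw [div_mul_cancel₀ _ hr.ne']
      · rw [mem_ball, dist_eq_norm]
        show ‖s • u i - r • u i‖ < ε
        rw [← sub_smul, norm_smul, hu, mul_one, Real.norm_eq_abs, abs_lt]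
        constructor <;> linarith [hε.1]
      · intro h
        have h1 : s • u i = r • u i := h
        have h2 : u i ≠ 0 := by
          intro h0
          have := hu i
          rw [h0, norm_zero] at this
          exact zero_ne_one this
        have h3 := smul_left_injective ℝ h2 h1
        linarith
  rw [hset]
  refine (isConnected_Ioo ?_).image _ ?_
  · have := hε.1; linarith
  · exact (continuous_id.smul continuous_const).continuousOn

theorem tri_admissible (u : Fin 3 → E) (hu : ∀ i, ‖u i‖ = 1) (hsum : ∑ i, u i = 0) {r : ℝ}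
    (hr : 0 < r) : Admissible (tri u r) (ends u r) 0 r where
  rpos := hr
  compact := (finite_range _).isCompact
  steiner := by
    refine ⟨(tri_compact u r).isClosed, ?_, ?_⟩
    · rw [union_eq_self_of_subset_right (ends_subset u r)]; exact tri_connected u r
    · intro S hS hc
      exact (tri_length_le u hu hr.le).trans (tri_le u hu hsum r hS hc)
  finite := ne_top_of_le_ne_top ENNReal.ofReal_ne_top (tri_length_le u hu hr.le)
  tree := tri_connected u r
  full := by
    rintro _ ⟨i, rfl⟩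
    exact tri_degree u hu hsum hr i
  free := by
    rw [eq_empty_iff_forall_notMem]
    rintro _ ⟨⟨i, rfl⟩, hb⟩
    rw [mem_ball_zero_iff] at hb
    simp only [norm_smul, hu, mul_one] at hb
    rw [Real.norm_of_nonneg hr.le] at hb
    exact lt_irrefl _ hb

/-- three unit vectors with sum zero exist in dimension at least two -/
theorem exists_triple (h2 : 2 ≤ Module.finrank ℝ E) :
    ∃ u : Fin 3 → E, (∀ i, ‖u i‖ = 1) ∧ ∑ i, u i = 0 := by
  set b := stdOrthonormalBasis ℝ E with hb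
  set e : E := b ⟨0, by omega⟩ with he
  set f : E := b ⟨1, by omega⟩ with hf
  have he1 : ‖e‖ = 1 := b.orthonormal.1 _
  have hf1 : ‖f‖ = 1 := b.orthonormal.1 _
  have hef : ⟪e, f⟫_ℝ = 0 := b.orthonormal.2 (by simp)
  have h3 : (√3) ^ 2 = 3 := Real.sq_sqrt (by norm_num)
  have hn : ∀ α β : ℝ, ‖α • e + β • f‖ ^ 2 = α ^ 2 + β ^ 2 := by
    intro α β
    rw [norm_add_sq_real, norm_smul, norm_smul, he1, hf1, real_inner_smul_left,
      real_inner_smul_right, hef, mul_one, mul_one, Real.norm_eq_abs, Real.norm_eq_abs, sq_abs,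
      sq_abs]
    ring
  have h1 : ∀ v : E, ‖v‖ ^ 2 = 1 → ‖v‖ = 1 := by
    intro v hv
    have h0 := norm_nonneg v
    nlinarith
  refine ⟨![e, (-1 / 2 : ℝ) • e + (√3 / 2) • f, (-1 / 2 : ℝ) • e + (-(√3 / 2)) • f], ?_, ?_⟩
  · intro i
    fin_cases i
    · exact he1
    · refine h1 _ ?_
      show ‖(-1 / 2 : ℝ) • e + (√3 / 2) • f‖ ^ 2 = 1
      rw [hn, div_pow (√3) 2, h3]; norm_num
    · refine h1 _ ?_
      show ‖(-1 / 2 : ℝ) • e + (-(√3 / 2)) • f‖ ^ 2 = 1
      rw [hn, neg_sq (√3 / 2), div_pow (√3) 2, h3]; norm_num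
  · rw [Fin.sum_univ_three]
    show e + ((-1 / 2 : ℝ) • e + (√3 / 2) • f) + ((-1 / 2 : ℝ) • e + (-(√3 / 2)) • f) = 0
    module

end SteinerBall
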