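import Pool.Agent.Work.MP_323107_co.Bounds
import Pool.Agent.Work.MP_323107_co.Tripod

open MeasureTheory Set Metric Filter Topology
open scoped ENNReal NNReal

namespace SteinerBall

/-- A class of configurations: a condition on quadruples (tree, terminals, centre, radius)
in `ℝ ^ d`. -/
abbrev ConfigClass (d : ℕ) : Type :=
  Set (EuclideanSpace ℝ (Fin d)) → Set (EuclideanSpace ℝ (Fin d)) →
    EuclideanSpace ℝ (Fin d) → ℝ → Prop

/-- The supremum over a class of configurations of the length of the tree in the concentric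
ball of radius `t r`, divided by `r`. -/
noncomputable def supLength {d : ℕ} (C : ConfigClass d) (t : ℝ) : ℝ≥0∞ :=
  ⨆ (St : Set (EuclideanSpace ℝ (Fin d))) (A : Set (EuclideanSpace ℝ (Fin d)))
    (x : EuclideanSpace ℝ (Fin d)) (r : ℝ) (_ : C St A x r),
    μH[1] (St ∩ ball x (t * r)) / ENNReal.ofReal r

/-- The class lies between the tripods centred at the origin and the weak class. -/
structure Between {d : ℕ} (C : ConfigClass d) : Prop where
  tripod : ∀ (u : Fin 3 → EuclideanSpace ℝ (Fin d)) (r : ℝ), (∀ i, ‖u i‖ = 1) →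
    ∑ i, u i = 0 → 0 < r → C (tri u r) (ends u r) 0 r
  locMin : ∀ (St A : Set (EuclideanSpace ℝ (Fin d))) (x : EuclideanSpace ℝ (Fin d)) (r : ℝ),
    C St A x r → LocMin St A x r

theorem between_admissible (d : ℕ) : Between (d := d) Admissible where
  tripod u r hu hsum hr := tri_admissible u hu hsum hr
  locMin _ _ _ _ h := h.locMin

theorem between_locMin (d : ℕ) : Between (d := d) LocMin where
  tripod u r hu hsum hr := (tri_admissible u hu hsum hr).locMin
  locMin _ _ _ _ h := h

/-- the constant in the upper bound -/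
noncomputable def bound (d : ℕ) : ℝ := 48 ^ (d - 1) * (2 * ((d - 2 : ℕ) : ℝ)) ^ (d - 2)

variable {d : ℕ} {C : ConfigClass d}

theorem le_supLength {St A : Set (EuclideanSpace ℝ (Fin d))} {x : EuclideanSpace ℝ (Fin d)}
    {r : ℝ} (h : C St A x r) (t : ℝ) :
    μH[1] (St ∩ ball x (t * r)) / ENNReal.ofReal r ≤ supLength C t :=
  le_iSup_of_le St (le_iSup_of_le A (le_iSup_of_le x (le_iSup_of_le r (le_iSup_of_le h le_rfl))))

theorem supLength_le {t : ℝ} {M : ℝ≥0∞} (h : ∀ (St A : Set (EuclideanSpace ℝ (Fin d)))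
    (x : EuclideanSpace ℝ (Fin d)) (r : ℝ), C St A x r →
      μH[1] (St ∩ ball x (t * r)) / ENNReal.ofReal r ≤ M) : supLength C t ≤ M :=
  iSup_le fun St => iSup_le fun A => iSup_le fun x => iSup_le fun r => iSup_le fun hC =>
    h St A x r hC

theorem LocMin.measure_eq {St A : Set (EuclideanSpace ℝ (Fin d))}
    {x : EuclideanSpace ℝ (Fin d)} {r : ℝ} (h : LocMin St A x r) {a : ℝ} (ha : a ≤ r) :
    μH[1] (St ∩ ball x a) = ENNReal.ofReal (len St x a) := by
  have h1 : μH[1] (St ∩ ball x a) ≠ ∞ :=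
    ne_top_of_le_ne_top h.finite (measure_mono (inter_subset_inter_right _ (ball_subset_ball ha)))
  rw [len, ENNReal.ofReal_toReal h1]

theorem LocMin.ratio_le {St A : Set (EuclideanSpace ℝ (Fin d))}
    {x : EuclideanSpace ℝ (Fin d)} {r : ℝ} (h : LocMin St A x r) {t M : ℝ} (ht1 : t < 1)
    (hM : len St x (t * r) ≤ M * r) :
    μH[1] (St ∩ ball x (t * r)) / ENNReal.ofReal r ≤ ENNReal.ofReal M := by
  have hr := h.rpos
  rw [h.measure_eq (by nlinarith), ← ENNReal.ofReal_div_of_pos hr]
  exact ENNReal.ofReal_le_ofReal ((div_le_iff₀ hr).2 hM)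

/-- the density ratio at half the radius -/
theorem LocMin.half_le (hd : 3 ≤ d) {St A : Set (EuclideanSpace ℝ (Fin d))}
    {x : EuclideanSpace ℝ (Fin d)} {r : ℝ} (h : LocMin St A x r) :
    len St x (1 / 2 * r) / (1 / 2 * r) ≤ bound d := by
  have hr := h.rpos
  obtain ⟨k, rfl⟩ : ∃ k, d = k + 2 := ⟨d - 2, by omega⟩
  have hk : 1 ≤ k := by omega
  have hfr : Module.finrank ℝ (EuclideanSpace ℝ (Fin (k + 2))) = k + 2 := by simp
  have e1 : k + 2 - 1 = k + 1 := by omega
  have e2 : k + 2 - 2 = k := by omega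
  rw [bound, e1, e2]
  have h24 : (24 : ℝ) ^ (k + 1) * 2 ^ (k + 1) = 48 ^ (k + 1) := by rw [← mul_pow]; norm_num
  have h4 := h.len_bound hk hfr (t := 1 / 2) (by norm_num) (by norm_num)
  rw [div_le_iff₀ (by positivity)]
  refine h4.trans_eq ?_
  rw [← h24]
  have : (1 - 1 / 2 : ℝ) ^ k = (2 ^ k)⁻¹ := by
    rw [show (1 - 1 / 2 : ℝ) = 2⁻¹ by norm_num, inv_pow]
  rw [this, div_inv_eq_mul, pow_succ 2 k]
  ring

/-- the upper bound for single configurations -/
theorem LocMin.len_le (hd : 3 ≤ d) {St A : Set (EuclideanSpace ℝ (Fin d))}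
    {x : EuclideanSpace ℝ (Fin d)} {r : ℝ} (h : LocMin St A x r) {t : ℝ} (ht : 0 < t)
    (ht1 : t < 1) : len St x (t * r) ≤ bound d * t / (1 - t) ^ (d - 2) * r := by
  have hr := h.rpos
  have h5 := h.half_le hd
  obtain ⟨k, rfl⟩ : ∃ k, d = k + 2 := ⟨d - 2, by omega⟩
  have hk : 1 ≤ k := by omega
  have hfr : Module.finrank ℝ (EuclideanSpace ℝ (Fin (k + 2))) = k + 2 := by simp
  have e1 : k + 2 - 1 = k + 1 := by omega
  have e2 : k + 2 - 2 = k := by omega
  rw [bound, e1, e2] at h5 ⊢
  have hk0 : (0 : ℝ) < k := by exact_mod_cast hk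
  have h1t : 0 < 1 - t := by linarith
  have h24 : (24 : ℝ) ^ (k + 1) * 2 ^ (k + 1) = 48 ^ (k + 1) := by rw [← mul_pow]; norm_num
  have hP : (0 : ℝ) < 24 ^ (k + 1) * (2 * k) ^ k := by positivity
  rcases le_or_gt (1 / 2) t with h2 | h2
  · refine (h.len_bound hk hfr ht ht1).trans ?_
    refine mul_le_mul_of_nonneg_right ?_ hr.le
    refine div_le_div_of_nonneg_right ?_ (by positivity)
    have h3 : (2 : ℝ) ≤ 2 ^ (k + 1) := by
      calc (2 : ℝ) = 2 ^ 1 := by norm_num
        _ ≤ 2 ^ (k + 1) := pow_le_pow_right₀ (by norm_num) (by omega)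
    calc (24 : ℝ) ^ (k + 1) * (2 * k) ^ k ≤ (24 ^ (k + 1) * (2 * k) ^ k) * (2 ^ (k + 1) * t) := by
          refine le_mul_of_one_le_right hP.le ?_
          nlinarith
      _ = 48 ^ (k + 1) * (2 * k) ^ k * t := by rw [← h24]; ring
  · have h3 := h.ratio_mono (a := t * r) (b := 1 / 2 * r) (by positivity)
      (mul_le_mul_of_nonneg_right h2.le hr.le) (by linarith)
    rw [div_le_iff₀ (by positivity)] at h3
    calc len St x (t * r) ≤ len St x (1 / 2 * r) / (1 / 2 * r) * (t * r) := h3
      _ ≤ 48 ^ (k + 1) * (2 * k) ^ k * (t * r) := mul_le_mul_of_nonneg_right h5 (by positivity)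
      _ = 48 ^ (k + 1) * (2 * k) ^ k * t * r := by ring
      _ ≤ 48 ^ (k + 1) * (2 * k) ^ k * t / (1 - t) ^ k * r := by
          refine mul_le_mul_of_nonneg_right ?_ hr.le
          rw [le_div_iff₀ (by positivity)]
          exact mul_le_of_le_one_right (by positivity) (pow_le_one₀ h1t.le (by linarith))

theorem supLength_upper (hd : 3 ≤ d) (hC : Between C) {t : ℝ} (ht : 0 < t) (ht1 : t < 1) :
    supLength C t ≤ ENNReal.ofReal (bound d * t / (1 - t) ^ (d - 2)) :=
  supLength_le fun St A x r h =>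
    (hC.locMin St A x r h).ratio_le ht1 ((hC.locMin St A x r h).len_le hd ht ht1)

theorem supLength_mono (hC : Between C) {s t : ℝ} (hs : 0 < s) (hst : s ≤ t) (ht : t < 1) :
    supLength C s / ENNReal.ofReal s ≤ supLength C t / ENNReal.ofReal t := by
  have ht0 : 0 < t := hs.trans_le hst
  rw [ENNReal.div_le_iff_le_mul (Or.inl (ENNReal.ofReal_pos.2 hs).ne')
    (Or.inl ENNReal.ofReal_ne_top)]
  refine supLength_le fun St A x r h => ?_
  have hL := hC.locMin St A x r h
  have hr := hL.rpos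
  have h1 := hL.ratio_mono (a := s * r) (b := t * r) (by positivity)
    (mul_le_mul_of_nonneg_right hst hr.le) (by nlinarith)
  have h2 := le_supLength (C := C) h t
  rw [hL.measure_eq (by nlinarith), ← ENNReal.ofReal_div_of_pos hr] at h2 ⊢
  have h3 : len St x (s * r) / r ≤ len St x (t * r) / r / t * s := by
    rw [div_le_iff₀ (by positivity)] at h1
    rw [div_le_iff₀ hr]
    calc len St x (s * r) ≤ len St x (t * r) / (t * r) * (s * r) := h1
      _ = len St x (t * r) / r / t * s * r := by field_simp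
  calc ENNReal.ofReal (len St x (s * r) / r)
      ≤ ENNReal.ofReal (len St x (t * r) / r / t * s) := ENNReal.ofReal_le_ofReal h3
    _ = ENNReal.ofReal (len St x (t * r) / r) / ENNReal.ofReal t * ENNReal.ofReal s := by
        rw [ENNReal.ofReal_mul (by have := len_nonneg St x (t * r); positivity),
          ENNReal.ofReal_div_of_pos ht0]
    _ ≤ supLength C t / ENNReal.ofReal t * ENNReal.ofReal s := by gcongr

/-- the tripod attains `3 t` -/
theorem tripod_value (u : Fin 3 → EuclideanSpace ℝ (Fin d)) (hu : ∀ i, ‖u i‖ = 1)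
    (hsum : ∑ i, u i = 0) {t r : ℝ} (ht : 0 < t) (ht1 : t < 1) (hr : 0 < r) :
    μH[1] (tri u r ∩ ball 0 (t * r)) / ENNReal.ofReal r = ENNReal.ofReal (3 * t) := by
  rw [tri_ball u hu hsum (by positivity) (by nlinarith), ← ENNReal.ofReal_div_of_pos hr]
  congr 1
  field_simp

theorem supLength_lower (hd : 3 ≤ d) (hC : Between C) {t : ℝ} (ht : 0 < t) (ht1 : t < 1) :
    ENNReal.ofReal (3 * t) ≤ supLength C t := by
  obtain ⟨u, hu, hsum⟩ := exists_triple (E := EuclideanSpace ℝ (Fin d)) (by simp; omega)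
  have h1 := le_supLength (C := C) (hC.tripod u 1 hu hsum one_pos) t
  rwa [tripod_value u hu hsum ht ht1 one_pos] at h1

theorem bound_pos (hd : 3 ≤ d) : 0 < bound d := by
  have : (0 : ℝ) < ((d - 2 : ℕ) : ℝ) := by exact_mod_cast (by omega : 0 < d - 2)
  rw [bound]; positivity

/-- an explicit radius below which the tripod is optimal -/
noncomputable def radius (d : ℕ) : ℝ := Real.exp (-(125 * bound d)) / 2

theorem radius_pos (d : ℕ) : 0 < radius d := by rw [radius]; positivity

theorem radius_lt (hd : 3 ≤ d) : radius d < 1 / 2 := by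
  have h1 : Real.exp (-(125 * bound d)) < 1 := by
    rw [Real.exp_lt_one_iff]; linarith [bound_pos hd]
  rw [radius]; linarith

theorem LocMin.len_small (hd : 3 ≤ d) {St A : Set (EuclideanSpace ℝ (Fin d))}
    {x : EuclideanSpace ℝ (Fin d)} {r : ℝ} (h : LocMin St A x r) {t : ℝ} (ht : 0 < t)
    (ht1 : t ≤ radius d) : len St x (t * r) ≤ 3 * t * r := by
  have hr := h.rpos
  by_contra hlt
  push Not at hlt
  have h2 : t < 1 / 2 := ht1.trans_lt (radius_lt hd)
  have h3 : 3 < len St x (t * r) / (t * r) := by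
    rw [lt_div_iff₀ (by positivity)]; linarith
  have h4 := h.log_growth (a := t * r) (b := 1 / 2 * r) (by positivity)
    (mul_le_mul_of_nonneg_right h2.le hr.le) (by linarith) h3
  have h5 := h.half_le hd
  have h6 : Real.exp (125 * bound d) ≤ (1 / 2 * r) / (t * r) := by
    have h7 : 2 * t ≤ Real.exp (-(125 * bound d)) := by rw [radius] at ht1; linarith
    have h8 : (1 / 2 * r) / (t * r) = 1 / (2 * t) := by field_simp
    rw [h8, le_div_iff₀ (by positivity)]
    calc Real.exp (125 * bound d) * (2 * t)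
        ≤ Real.exp (125 * bound d) * Real.exp (-(125 * bound d)) :=
          mul_le_mul_of_nonneg_left h7 (Real.exp_pos _).le
      _ = 1 := by rw [← Real.exp_add]; simp
  have h9 : 125 * bound d ≤ Real.log ((1 / 2 * r) / (t * r)) :=
    (Real.le_log_iff_exp_le (by positivity)).2 h6
  linarith

theorem supLength_small (hd : 3 ≤ d) (hC : Between C) {t : ℝ} (ht : 0 < t)
    (ht1 : t ≤ radius d) : supLength C t = ENNReal.ofReal (3 * t) := by
  have h2 : t < 1 / 2 := ht1.trans_lt (radius_lt hd)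
  refine le_antisymm (supLength_le fun St A x r h => ?_)
    (supLength_lower hd hC ht (by linarith))
  have hL := hC.locMin St A x r h
  exact hL.ratio_le (by linarith) (hL.len_small hd ht ht1)

/-- left continuity -/
theorem supLength_le_of_lt (hC : Between C) {t : ℝ} (ht : 0 < t) {M : ℝ} (hM : 0 ≤ M)
    (h : ∀ s, 0 < s → s < t → supLength C s ≤ ENNReal.ofReal (M * s)) :
    supLength C t ≤ ENNReal.ofReal (M * t) := by
  refine supLength_le fun St A x r hc => ?_
  have hr := (hC.locMin St A x r hc).rpos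
  rw [ENNReal.div_le_iff_le_mul (Or.inl (ENNReal.ofReal_pos.2 hr).ne')
    (Or.inl ENNReal.ofReal_ne_top)]
  set s : ℕ → ℝ := fun n => t * (1 - 1 / ((n : ℝ) + 2)) with hs
  have hs0 : ∀ n, 0 < s n := fun n => by
    have : (1 : ℝ) / ((n : ℝ) + 2) < 1 := by
      rw [div_lt_one (by positivity)]; have := Nat.cast_nonneg (α := ℝ) n; linarith
    exact mul_pos ht (by linarith)
  have hst : ∀ n, s n < t := fun n => by
    have : (0 : ℝ) < 1 / ((n : ℝ) + 2) := by positivity
    show t * (1 - 1 / ((n : ℝ) + 2)) < t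
    nlinarith
  have hmono : Monotone s := by
    intro m n hmn
    have hmn' : (m : ℝ) ≤ n := by exact_mod_cast hmn
    have : (1 : ℝ) / ((n : ℝ) + 2) ≤ 1 / ((m : ℝ) + 2) :=
      one_div_le_one_div_of_le (by positivity) (by linarith)
    exact mul_le_mul_of_nonneg_left (by linarith) ht.le
  have hlim : Tendsto s atTop (𝓝 t) := by
    have h1 : Tendsto (fun n : ℕ => (1 : ℝ) / ((n : ℝ) + 2)) atTop (𝓝 0) := by
      have h2 := (tendsto_one_div_add_atTop_nhds_zero_nat (𝕜 := ℝ)).comp (tendsto_add_atTop_nat 1)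
      refine h2.congr fun n => ?_
      simp only [Function.comp_apply]
      push_cast
      ring_nf
    have h3 := (tendsto_const_nhds (x := (1 : ℝ))).sub h1
    have h4 := h3.const_mul t
    rw [sub_zero, mul_one] at h4
    exact h4
  have hball : St ∩ ball x (t * r) = ⋃ n, St ∩ ball x (s n * r) := by
    rw [← inter_iUnion]
    congr 1
    ext y
    rw [mem_iUnion]
    constructor
    · intro hy
      rw [mem_ball, ← div_lt_iff₀ hr] at hy
      obtain ⟨n, hn⟩ := (hlim.eventually_const_lt hy).exists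
      exact ⟨n, by rw [mem_ball, ← div_lt_iff₀ hr]; exact hn⟩
    · rintro ⟨n, hn⟩
      exact ball_subset_ball (mul_le_mul_of_nonneg_right (hst n).le hr.le) hn
  have hmon2 : Monotone fun n => St ∩ ball x (s n * r) := fun m n hmn =>
    inter_subset_inter_right _ (ball_subset_ball (mul_le_mul_of_nonneg_right (hmono hmn) hr.le))
  rw [hball, hmon2.measure_iUnion]
  refine iSup_le fun n => ?_
  have h1 := (le_supLength (C := C) hc (s n)).trans (h (s n) (hs0 n) (hst n))
  rw [ENNReal.div_le_iff_le_mul (Or.inl (ENNReal.ofReal_pos.2 hr).ne')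
    (Or.inl ENNReal.ofReal_ne_top)] at h1
  refine h1.trans ?_
  gcongr
  exact (hst n).le

theorem supLength_interval (hd : 3 ≤ d) (hC : Between C) :
    ∃ t₀ : ℝ, radius d ≤ t₀ ∧ t₀ ≤ 1 ∧
      ∀ t, 0 < t → t < 1 → (supLength C t = ENNReal.ofReal (3 * t) ↔ t ≤ t₀) := by
  set T : Set ℝ := {t | 0 < t ∧ t < 1 ∧ supLength C t = ENNReal.ofReal (3 * t)} with hT
  have h0 : radius d ∈ T :=
    ⟨radius_pos d, by linarith [radius_lt hd], supLength_small hd hC (radius_pos d) le_rfl⟩
  have hbdd : BddAbove T := ⟨1, fun t ht => ht.2.1.le⟩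
  refine ⟨sSup T, le_csSup hbdd h0, csSup_le ⟨_, h0⟩ fun t ht => ht.2.1.le, fun t ht ht1 => ?_⟩
  constructor
  · intro h
    exact le_csSup hbdd ⟨ht, ht1, h⟩
  · intro h
    have hlt : ∀ s, 0 < s → s < t → supLength C s ≤ ENNReal.ofReal (3 * s) := by
      intro s hs hst
      obtain ⟨b, hb, hsb⟩ := exists_lt_of_lt_csSup ⟨_, h0⟩ (hst.trans_le h)
      have h1 := supLength_mono hC hs hsb.le hb.2.1
      rw [hb.2.2, ← ENNReal.ofReal_div_of_pos hb.1,
        ENNReal.div_le_iff_le_mul (Or.inl (ENNReal.ofReal_pos.2 hs).ne')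
          (Or.inl ENNReal.ofReal_ne_top), ← ENNReal.ofReal_mul (by
            have := hb.1; positivity)] at h1
      refine h1.trans_eq ?_
      have := hb.1.ne'
      congr 1
      field_simp
    exact le_antisymm (supLength_le_of_lt hC ht (by norm_num) hlt)
      (supLength_lower hd hC ht ht1)

end SteinerBall
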